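import Mathlib

/-! Free Banach lattices as normed spaces, used for MP_207313_an. -/

open scoped ENNReal

namespace Pool.Agent.X101.FBL

noncomputable section

variable {E : Type*} [NormedAddCommGroup E] [NormedSpace ℝ E]

/-- A finite family of functionals with `sup_{‖x‖ ≤ 1} ∑ |x_i(x)| ≤ 1`. -/
def Admissible {m : ℕ} (x : Fin m → StrongDual ℝ E) : Prop :=
  ∀ v : E, ‖v‖ ≤ 1 → ∑ i, |x i v| ≤ 1

/-- The norm `sup ∑ |f(x_i)|`, with values in `[0, ∞]`. -/
def fnorm (f : StrongDual ℝ E → ℝ) : ℝ≥0∞ :=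
  ⨆ (m : ℕ) (x : Fin m → StrongDual ℝ E) (_ : Admissible x), ∑ i, ENNReal.ofReal |f (x i)|

/-- Positively homogeneous functions. -/
def PosHom (f : StrongDual ℝ E → ℝ) : Prop :=
  ∀ (t : ℝ) (x : StrongDual ℝ E), 0 ≤ t → f (t • x) = t * f x

lemma le_fnorm (f : StrongDual ℝ E → ℝ) {m : ℕ} {x : Fin m → StrongDual ℝ E} (hx : Admissible x) :
    ∑ i, ENNReal.ofReal |f (x i)| ≤ fnorm f :=
  le_iSup_of_le m (le_iSup_of_le x (le_iSup_of_le hx le_rfl))

lemma sum_le_of_fnorm_le {f : StrongDual ℝ E → ℝ} {C : ℝ} (hC : 0 ≤ C)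
    (hf : fnorm f ≤ ENNReal.ofReal C) {m : ℕ} {x : Fin m → StrongDual ℝ E} (hx : Admissible x) :
    ∑ i, |f (x i)| ≤ C := by
  have h := (le_fnorm f hx).trans hf
  rw [← ENNReal.ofReal_sum_of_nonneg fun i _ => abs_nonneg _, ENNReal.ofReal_le_ofReal_iff hC] at h
  exact h

lemma fnorm_le {f : StrongDual ℝ E → ℝ} {C : ℝ}
    (h : ∀ (m : ℕ) (x : Fin m → StrongDual ℝ E), Admissible x → ∑ i, |f (x i)| ≤ C) :
    fnorm f ≤ ENNReal.ofReal C := by
  refine iSup_le fun m => iSup_le fun x => iSup_le fun hx => ?_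
  rw [← ENNReal.ofReal_sum_of_nonneg fun i _ => abs_nonneg _]
  exact ENNReal.ofReal_le_ofReal (h m x hx)

lemma exists_of_lt_fnorm {f : StrongDual ℝ E → ℝ} {C : ℝ} (h : ENNReal.ofReal C < fnorm f) :
    ∃ (m : ℕ) (x : Fin m → StrongDual ℝ E), Admissible x ∧ C < ∑ i, |f (x i)| := by
  by_contra hcon
  push Not at hcon
  exact absurd (fnorm_le hcon) (not_le.2 h)

lemma sum_le_toReal {f : StrongDual ℝ E → ℝ} (hf : fnorm f < ⊤) {m : ℕ} {x : Fin m → StrongDual ℝ E}
    (hx : Admissible x) : ∑ i, |f (x i)| ≤ (fnorm f).toReal :=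
  sum_le_of_fnorm_le ENNReal.toReal_nonneg (ENNReal.ofReal_toReal hf.ne).symm.le hx

lemma toReal_le {f : StrongDual ℝ E → ℝ} {C : ℝ} (hC : 0 ≤ C)
    (h : ∀ (m : ℕ) (x : Fin m → StrongDual ℝ E), Admissible x → ∑ i, |f (x i)| ≤ C) :
    (fnorm f).toReal ≤ C :=
  ENNReal.toReal_le_of_le_ofReal hC (fnorm_le h)

lemma fnorm_add_le {f g : StrongDual ℝ E → ℝ} (hf : fnorm f < ⊤) (hg : fnorm g < ⊤) :
    fnorm (f + g) ≤ ENNReal.ofReal ((fnorm f).toReal + (fnorm g).toReal) := by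
  refine fnorm_le fun m x hx => ?_
  calc ∑ i, |(f + g) (x i)| ≤ ∑ i, (|f (x i)| + |g (x i)|) :=
        Finset.sum_le_sum fun i _ => abs_add_le _ _
    _ ≤ _ := by
        rw [Finset.sum_add_distrib]
        exact add_le_add (sum_le_toReal hf hx) (sum_le_toReal hg hx)

lemma fnorm_smul_le (c : ℝ) {f : StrongDual ℝ E → ℝ} (hf : fnorm f < ⊤) :
    fnorm (c • f) ≤ ENNReal.ofReal (|c| * (fnorm f).toReal) := by
  refine fnorm_le fun m x hx => ?_
  simp only [Pi.smul_apply, smul_eq_mul, abs_mul]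
  rw [← Finset.mul_sum]
  exact mul_le_mul_of_nonneg_left (sum_le_toReal hf hx) (abs_nonneg _)

variable (E) in
/-- The space `H[E]` of the positively homogeneous functions of finite norm. -/
def H : Submodule ℝ (StrongDual ℝ E → ℝ) where
  carrier := {f | PosHom f ∧ fnorm f < ⊤}
  add_mem' := by
    rintro f g ⟨hf, hf'⟩ ⟨hg, hg'⟩
    refine ⟨fun t x ht => ?_, lt_of_le_of_lt (fnorm_add_le hf' hg') ENNReal.ofReal_lt_top⟩
    simp only [Pi.add_apply, hf t x ht, hg t x ht]; ring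
  zero_mem' := by
    refine ⟨fun t x _ => by simp, ?_⟩
    refine lt_of_le_of_lt (fnorm_le (C := 0) fun m x _ => by simp) ENNReal.ofReal_lt_top
  smul_mem' := by
    rintro c f ⟨hf, hf'⟩
    refine ⟨fun t x ht => ?_, lt_of_le_of_lt (fnorm_smul_le c hf') ENNReal.ofReal_lt_top⟩
    simp only [Pi.smul_apply, hf t x ht, smul_eq_mul]; ring

variable (E) in
/-- The space `H[E]` as a type of its own: its topology is the one of its norm, defined below. -/
def HE : Type _ := H E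

/-- vector space structure of `H[E]` -/
instance : AddCommGroup (HE E) := inferInstanceAs (AddCommGroup (H E))

/-- vector space structure of `H[E]` -/
instance : Module ℝ (HE E) := inferInstanceAs (Module ℝ (H E))

/-- the elements of `H[E]` as functions -/
instance : CoeFun (HE E) fun _ => StrongDual ℝ E → ℝ := ⟨Subtype.val⟩

/-- the norm of `H[E]` -/
instance : Norm (HE E) := ⟨fun f => (fnorm f.1).toReal⟩

lemma norm_def (f : HE E) : ‖f‖ = (fnorm f.1).toReal := rfl

/-- a function of finite norm as an element of `H[E]` -/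
def mkH (f : StrongDual ℝ E → ℝ) (h : f ∈ H E) : HE E := ⟨f, h⟩

lemma single_adm {x : StrongDual ℝ E} (hx : ‖x‖ ≤ 1) : Admissible (fun _ : Fin 1 => x) := by
  intro v hv
  simp only [Finset.univ_unique, Finset.sum_const, Finset.card_singleton, one_smul]
  exact (x.le_opNorm v).trans (by nlinarith [norm_nonneg v, norm_nonneg x])

lemma abs_le_norm (f : HE E) (x : StrongDual ℝ E) : |f x| ≤ ‖f‖ * ‖x‖ := by
  have hp : PosHom f.1 := f.2.1
  by_cases hx : x = 0
  · subst hx
    have := hp 0 0 le_rfl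
    simp only [smul_zero, zero_mul] at this
    simp [this]
  · have hx' : 0 < ‖x‖ := norm_pos_iff.2 hx
    have hadm : Admissible (fun _ : Fin 1 => ‖x‖⁻¹ • x) :=
      single_adm (by rw [norm_smul, norm_inv, norm_norm, inv_mul_cancel₀ hx'.ne'])
    have h := sum_le_toReal f.2.2 hadm
    simp only [Finset.univ_unique, Fin.default_eq_zero, Fin.isValue, Finset.sum_const,
      Finset.card_singleton, one_smul] at h
    rw [hp _ _ (inv_pos.2 hx').le, abs_mul, abs_of_pos (inv_pos.2 hx'), inv_mul_le_iff₀ hx'] at h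
    rw [norm_def, mul_comm]
    exact h

/-- `H[E]` is a normed group -/
lemma core : NormedSpace.Core ℝ (HE E) where
  norm_nonneg f := ENNReal.toReal_nonneg
  norm_smul c f := by
    apply le_antisymm
    · exact toReal_le (mul_nonneg (abs_nonneg _) ENNReal.toReal_nonneg) fun m x hx =>
        sum_le_of_fnorm_le (mul_nonneg (abs_nonneg _) ENNReal.toReal_nonneg) (fnorm_smul_le c f.2.2) hx
    · by_cases hc : c = 0
      · subst hc; simp [norm_def]
      · have h := toReal_le (f := f.1) (C := |c|⁻¹ * ‖c • f‖) (mul_nonneg (by positivity)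
          ENNReal.toReal_nonneg) fun m x hx => ?_
        · rw [← div_eq_inv_mul, le_div_iff₀ (abs_pos.2 hc)] at h
          rw [norm_def f, Real.norm_eq_abs, mul_comm]
          exact h
        · have h1 := sum_le_toReal (c • f).2.2 hx
          have h2 : ∑ i, |(c • f).1 (x i)| = |c| * ∑ i, |f.1 (x i)| := by
            rw [Finset.mul_sum]
            exact Finset.sum_congr rfl fun i _ => abs_mul _ _
          rw [h2] at h1
          rw [← div_eq_inv_mul, le_div_iff₀ (abs_pos.2 hc), mul_comm]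
          exact h1
  norm_triangle f g := toReal_le (add_nonneg ENNReal.toReal_nonneg ENNReal.toReal_nonneg)
    fun m x hx => sum_le_of_fnorm_le (add_nonneg ENNReal.toReal_nonneg ENNReal.toReal_nonneg)
      (fnorm_add_le f.2.2 g.2.2) hx
  norm_eq_zero_iff f := by
    constructor
    · intro h
      refine Subtype.ext (funext fun x => ?_)
      have h1 := abs_le_norm f x
      rw [h, zero_mul] at h1
      exact abs_eq_zero.1 (le_antisymm h1 (abs_nonneg _))
    · rintro rfl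
      refine le_antisymm (toReal_le le_rfl fun m x _ => ?_) ENNReal.toReal_nonneg
      have : ∀ y, (0 : HE E) y = 0 := fun y => rfl
      simp [this]

/-- `H[E]` as a normed group -/
instance : NormedAddCommGroup (HE E) := NormedAddCommGroup.ofCore core

/-- `H[E]` as a normed space -/
instance : NormedSpace ℝ (HE E) := NormedSpace.ofCore core

/-- The evaluation `δ_v`. -/
def delta (v : E) : StrongDual ℝ E → ℝ := fun x => x v

/-- The vector sublattice generated by the functions `δ_v`, `v ∈ E`. -/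
inductive Lat : (StrongDual ℝ E → ℝ) → Prop
  | delta (v : E) : Lat (delta v)
  | add {f g : StrongDual ℝ E → ℝ} : Lat f → Lat g → Lat (f + g)
  | smul (c : ℝ) {f : StrongDual ℝ E → ℝ} : Lat f → Lat (c • f)
  | sup {f g : StrongDual ℝ E → ℝ} : Lat f → Lat g → Lat (f ⊔ g)

lemma lat_zero : Lat (0 : StrongDual ℝ E → ℝ) := by
  have := Lat.smul 0 (Lat.delta (0 : E))
  rwa [zero_smul] at this

variable (E) in
/-- The vector sublattice generated by the `δ_v` as a subspace of `H[E]`. -/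
def latSub : Submodule ℝ (HE E) where
  carrier := {f | Lat f.1}
  add_mem' h1 h2 := Lat.add h1 h2
  zero_mem' := lat_zero
  smul_mem' c _ h := Lat.smul c h

variable (E) in
/-- The free Banach lattice `FBL[E]`. -/
def Free : Submodule ℝ (HE E) := (latSub E).topologicalClosure

lemma Lat.posHom {f : StrongDual ℝ E → ℝ} (h : Lat f) : PosHom f := by
  induction h with
  | delta v => exact fun t x _ => rfl
  | add _ _ h1 h2 => exact fun t x ht => by simp only [Pi.add_apply, h1 t x ht, h2 t x ht]; ring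
  | smul c _ h1 => exact fun t x ht => by simp only [Pi.smul_apply, h1 t x ht, smul_eq_mul]; ring
  | sup _ _ h1 h2 =>
    intro t x ht
    simp only [Pi.sup_apply, h1 t x ht, h2 t x ht]
    exact (mul_max_of_nonneg _ _ ht).symm

lemma Lat.bound {f : StrongDual ℝ E → ℝ} (h : Lat f) :
    ∃ C : ℝ, ∀ (m : ℕ) (x : Fin m → StrongDual ℝ E), Admissible x → ∑ i, |f (x i)| ≤ C := by
  induction h with
  | delta v =>
    refine ⟨‖v‖, fun m x hx => ?_⟩
    by_cases hv : v = 0
    · subst hv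
      simp [Pool.Agent.X101.FBL.delta]
    · have hv' : 0 < ‖v‖ := norm_pos_iff.2 hv
      have h1 := hx (‖v‖⁻¹ • v) (by rw [norm_smul, norm_inv, norm_norm, inv_mul_cancel₀ hv'.ne'])
      have h2 : ∀ i, |x i (‖v‖⁻¹ • v)| = ‖v‖⁻¹ * |x i v| := by
        intro i
        rw [map_smul, smul_eq_mul, abs_mul, abs_of_pos (inv_pos.2 hv')]
      simp_rw [h2] at h1
      rw [← Finset.mul_sum, inv_mul_le_iff₀ hv', mul_one] at h1
      exact h1
  | add _ _ h1 h2 =>
    obtain ⟨C1, h1⟩ := h1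
    obtain ⟨C2, h2⟩ := h2
    refine ⟨C1 + C2, fun m x hx => ?_⟩
    calc _ ≤ ∑ i, (|_| + |_|) := Finset.sum_le_sum fun i _ => abs_add_le _ _
      _ ≤ C1 + C2 := by rw [Finset.sum_add_distrib]; exact add_le_add (h1 m x hx) (h2 m x hx)
  | smul c _ h1 =>
    obtain ⟨C1, h1⟩ := h1
    refine ⟨|c| * C1, fun m x hx => ?_⟩
    simp only [Pi.smul_apply, smul_eq_mul, abs_mul]
    rw [← Finset.mul_sum]
    exact mul_le_mul_of_nonneg_left (h1 m x hx) (abs_nonneg _)
  | sup _ _ h1 h2 =>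
    obtain ⟨C1, h1⟩ := h1
    obtain ⟨C2, h2⟩ := h2
    refine ⟨C1 + C2, fun m x hx => ?_⟩
    calc _ ≤ ∑ i, (|_| + |_|) := Finset.sum_le_sum fun i _ => by
          simp only [Pi.sup_apply]
          exact (abs_max_le_max_abs_abs).trans (max_le_add_of_nonneg (abs_nonneg _) (abs_nonneg _))
      _ ≤ C1 + C2 := by rw [Finset.sum_add_distrib]; exact add_le_add (h1 m x hx) (h2 m x hx)

lemma Lat.mem {f : StrongDual ℝ E → ℝ} (h : Lat f) : f ∈ H E := by
  obtain ⟨C, hC⟩ := h.bound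
  exact ⟨h.posHom, lt_of_le_of_lt (fnorm_le hC) ENNReal.ofReal_lt_top⟩

lemma Lat.continuous {f : StrongDual ℝ E → ℝ} (h : Lat f) : Continuous f := by
  induction h with
  | delta v => exact (ContinuousLinearMap.apply ℝ ℝ v).continuous
  | add _ _ h1 h2 => exact h1.add h2
  | smul c _ h1 => exact h1.const_smul c
  | sup _ _ h1 h2 => exact h1.sup h2

/-- `f` belongs to `FBL[E]`, as a function -/
def InF (f : StrongDual ℝ E → ℝ) : Prop := ∃ h : f ∈ H E, mkH f h ∈ Free E

lemma inF_iff {f : StrongDual ℝ E → ℝ} : InF f ↔ f ∈ H E ∧ ∀ ε > 0, ∃ g, Lat g ∧ ∃ hd : f - g ∈ H E,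
    ‖(mkH (f - g) (hd))‖ < ε := by
  constructor
  · rintro ⟨h, hf⟩
    refine ⟨h, fun ε hε => ?_⟩
    rw [← SetLike.mem_coe, Free, Submodule.topologicalClosure_coe] at hf
    obtain ⟨g, hg, hd⟩ := Metric.mem_closure_iff.1 hf ε hε
    refine ⟨g.1, hg, (H E).sub_mem h g.2, ?_⟩
    rw [dist_eq_norm] at hd
    exact hd
  · rintro ⟨h, hf⟩
    refine ⟨h, ?_⟩
    rw [← SetLike.mem_coe, Free, Submodule.topologicalClosure_coe]
    refine Metric.mem_closure_iff.2 fun ε hε => ?_
    obtain ⟨g, hg, hd, hn⟩ := hf ε hε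
    exact ⟨mkH g hg.mem, hg, by rw [dist_eq_norm]; exact hn⟩

lemma Lat.inF {f : StrongDual ℝ E → ℝ} (h : Lat f) : InF f :=
  ⟨h.mem, (latSub E).le_topologicalClosure h⟩

lemma InF.add {f g : StrongDual ℝ E → ℝ} (hf : InF f) (hg : InF g) : InF (f + g) :=
  ⟨(H E).add_mem hf.1 hg.1, (Free E).add_mem hf.2 hg.2⟩

lemma InF.smul (c : ℝ) {f : StrongDual ℝ E → ℝ} (hf : InF f) : InF (c • f) :=
  ⟨(H E).smul_mem c hf.1, (Free E).smul_mem c hf.2⟩

lemma InF.sub {f g : StrongDual ℝ E → ℝ} (hf : InF f) (hg : InF g) : InF (f - g) :=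
  ⟨(H E).sub_mem hf.1 hg.1, (Free E).sub_mem hf.2 hg.2⟩

/-- domination of the norm -/
lemma norm_le_of {f : HE E} {C : ℝ} (hC : 0 ≤ C)
    (h : ∀ (m : ℕ) (x : Fin m → StrongDual ℝ E), Admissible x → ∑ i, |f (x i)| ≤ C) : ‖f‖ ≤ C :=
  toReal_le hC h

lemma sum_le_norm (f : HE E) {m : ℕ} {x : Fin m → StrongDual ℝ E} (hx : Admissible x) :
    ∑ i, |f (x i)| ≤ ‖f‖ := sum_le_toReal f.2.2 hx

lemma mem_H_of_le {f g k : StrongDual ℝ E → ℝ} (hf : PosHom f) (hg : g ∈ H E) (hk : k ∈ H E)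
    (h : ∀ x, |f x| ≤ |g x| + |k x|) : f ∈ H E := by
  refine ⟨hf, lt_of_le_of_lt (fnorm_le (C := ‖(mkH (g) (hg))‖ + ‖(mkH (k) (hk))‖)
    fun m x hx => ?_) ENNReal.ofReal_lt_top⟩
  calc ∑ i, |f (x i)| ≤ ∑ i, (|g (x i)| + |k (x i)|) := Finset.sum_le_sum fun i _ => h _
    _ ≤ _ := by
        rw [Finset.sum_add_distrib]
        exact add_le_add (sum_le_norm (mkH (g) (hg)) hx) (sum_le_norm (mkH (k) (hk)) hx)

lemma InF.sup {f g : StrongDual ℝ E → ℝ} (hf : InF f) (hg : InF g) : InF (f ⊔ g) := by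
  rw [inF_iff] at *
  have hmem : f ⊔ g ∈ H E := by
    refine mem_H_of_le (fun t x ht => ?_) hf.1 hg.1 fun x => ?_
    · simp only [Pi.sup_apply, hf.1.1 t x ht, hg.1.1 t x ht]
      exact (mul_max_of_nonneg _ _ ht).symm
    · simp only [Pi.sup_apply]
      exact (abs_max_le_max_abs_abs).trans (max_le_add_of_nonneg (abs_nonneg _) (abs_nonneg _))
  refine ⟨hmem, fun ε hε => ?_⟩
  obtain ⟨f', hf', hd1, hn1⟩ := hf.2 (ε / 2) (by positivity)
  obtain ⟨g', hg', hd2, hn2⟩ := hg.2 (ε / 2) (by positivity)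
  refine ⟨f' ⊔ g', Lat.sup hf' hg', (H E).sub_mem hmem (Lat.sup hf' hg').mem, ?_⟩
  have h : ‖(mkH (f ⊔ g - f' ⊔ g') ((H E).sub_mem hmem (Lat.sup hf' hg').mem))‖
      ≤ ‖(mkH (f - f') (hd1))‖ + ‖(mkH (g - g') (hd2))‖ := by
    refine norm_le_of (add_nonneg (norm_nonneg _) (norm_nonneg _)) fun m x hx => ?_
    calc _ ≤ ∑ i, (|(f - f') (x i)| + |(g - g') (x i)|) := Finset.sum_le_sum fun i _ => by
          simp only [Pi.sub_apply, Pi.sup_apply]
          refine (abs_max_sub_max_le_max _ _ _ _).trans ?_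
          exact max_le_add_of_nonneg (abs_nonneg _) (abs_nonneg _)
      _ ≤ _ := by
          rw [Finset.sum_add_distrib]
          exact add_le_add (sum_le_norm (mkH (f - f') (hd1)) hx) (sum_le_norm (mkH (g - g') (hd2)) hx)
  linarith

lemma InF.neg {f : StrongDual ℝ E → ℝ} (hf : InF f) : InF (-f) := by
  have := hf.smul (-1)
  rwa [neg_one_smul] at this

lemma InF.inf {f g : StrongDual ℝ E → ℝ} (hf : InF f) (hg : InF g) : InF (f ⊓ g) := by
  have := (hf.neg.sup hg.neg).neg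
  convert this using 1
  funext x
  simp only [Pi.inf_apply, Pi.neg_apply, Pi.sup_apply]
  rw [max_neg_neg, neg_neg]

lemma InF.continuous {f : StrongDual ℝ E → ℝ} (hf : InF f) : Continuous f := by
  rw [inF_iff] at hf
  rw [Metric.continuous_iff]
  intro x ε hε
  obtain ⟨g, hg, hd, hn⟩ := hf.2 (ε / (4 * (‖x‖ + 1))) (by positivity)
  have hgc := Metric.continuous_iff.1 hg.continuous x (ε / 4) (by positivity)
  obtain ⟨δ, hδ, hδ'⟩ := hgc
  refine ⟨min δ 1, lt_min hδ one_pos, fun y hy => ?_⟩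
  have hb : ∀ z : StrongDual ℝ E, ‖z‖ ≤ ‖x‖ + 1 → |f z - g z| ≤ ε / 4 := by
    intro z hz
    have h1 := abs_le_norm (mkH (f - g) (hd)) z
    have h2 : ‖(mkH (f - g) (hd))‖ * ‖z‖ ≤ ε / (4 * (‖x‖ + 1)) * (‖x‖ + 1) :=
      mul_le_mul hn.le hz (norm_nonneg _) (by positivity)
    have h3 : ε / (4 * (‖x‖ + 1)) * (‖x‖ + 1) = ε / 4 := by
      have : ‖x‖ + 1 ≠ 0 := by positivity
      field_simp
    exact h1.trans (h2.trans h3.le)
  have hy1 : ‖y‖ ≤ ‖x‖ + 1 := by
    have : ‖y - x‖ < 1 := by rw [← dist_eq_norm]; exact hy.trans_le (min_le_right _ _)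
    have := norm_le_insert' y x
    linarith
  have h1 := hb y hy1
  have h2 := hb x (by linarith)
  have h3 := hδ' y (hy.trans_le (min_le_left _ _))
  rw [Real.dist_eq] at *
  have e : f y - f x = (f y - g y) + (g y - g x) - (f x - g x) := by ring
  rw [e]
  calc |(f y - g y) + (g y - g x) - (f x - g x)| ≤ |(f y - g y) + (g y - g x)| + |f x - g x| :=
        abs_sub _ _
    _ ≤ |f y - g y| + |g y - g x| + |f x - g x| := by
        linarith [abs_add_le (f y - g y) (g y - g x)]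
    _ < ε := by linarith

end

end Pool.Agent.X101.FBL
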