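import Mathlib

/-! Lyapunov inertia lemma and the eigenvalue localisation used for MP_25d917_an. -/

namespace Pool.Agent.X101.Inertia

open Module Complex

/-- If `Re h(x, N x) > 0` for all `x ≠ 0` and all eigenvalues of `N` have non-positive real part,
then the Hermitian form `h` is negative definite. -/
theorem neg_def_of_eigenvalues (d : ℕ) : ∀ (V : Type) [AddCommGroup V] [Module ℂ V]
    [FiniteDimensional ℂ V], finrank ℂ V = d →
    ∀ (h : V →ₗ⋆[ℂ] V →ₗ[ℂ] ℂ) (N : V →ₗ[ℂ] V),
      (∀ x y, (starRingEnd ℂ) (h x y) = h y x) →
      (∀ x, x ≠ 0 → 0 < (h x (N x)).re) →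
      (∀ μ : ℂ, End.HasEigenvalue N μ → μ.re ≤ 0) →
      ∀ x, x ≠ 0 → (h x x).re < 0 := by
  induction d using Nat.strong_induction_on with
  | _ d ih =>
    intro V _ _ _ hd h N hherm hpos heig x hx
    haveI : Nontrivial V := ⟨x, 0, hx⟩
    obtain ⟨μ, hμ⟩ := End.exists_eigenvalue N
    obtain ⟨v, hv⟩ := hμ.exists_hasEigenvector
    have hNv : N v = μ • v := hv.apply_eq_smul
    have hv0 : v ≠ 0 := hv.2
    have hreal : ∀ y, (h y y).im = 0 := by
      intro y
      have := hherm y y
      have := congrArg Complex.im this
      simp at this
      linarith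
    have h1 : 0 < μ.re * (h v v).re := by
      have := hpos v hv0
      rw [hNv, map_smul, smul_eq_mul, Complex.mul_re, hreal v] at this
      simpa using this
    have hμ0 : μ.re ≤ 0 := heig μ hμ
    have hvv : (h v v).re < 0 := by
      by_contra hcon
      push Not at hcon
      nlinarith
    have hvvne : h v v ≠ 0 := by
      intro h0
      rw [h0] at hvv
      simp at hvv
    -- the complement
    let W : Submodule ℂ V := LinearMap.ker (h v)
    have hWlt : finrank ℂ W < d := by
      rw [← hd]
      apply Submodule.finrank_lt
      intro htop
      have : v ∈ W := by rw [htop]; trivial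
      exact hvvne (LinearMap.mem_ker.1 this)
    let P : V →ₗ[ℂ] W := LinearMap.codRestrict W
      (LinearMap.id - ((h v v)⁻¹ • (h v)).smulRight v) (by
        intro y
        simp only [W, LinearMap.mem_ker, LinearMap.sub_apply, LinearMap.id_apply,
          LinearMap.smulRight_apply, LinearMap.smul_apply, map_sub, map_smul, smul_eq_mul]
        field_simp
        ring)
    have hP : ∀ y, ((P y : W) : V) = y - ((h v v)⁻¹ * h v y) • v := by
      intro y
      simp [P]
    have hWorth : ∀ w : W, h v (w : V) = 0 := fun w => LinearMap.mem_ker.1 w.2
    have hWorth' : ∀ w : W, h (w : V) v = 0 := by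
      intro w
      rw [← hherm, hWorth w, map_zero]
    let hW : W →ₗ⋆[ℂ] W →ₗ[ℂ] ℂ := (h.domRestrict₁₂ W W)
    have hWapp : ∀ a b : W, hW a b = h (a : V) (b : V) := fun a b => rfl
    have key := ih (finrank ℂ W) hWlt W rfl hW (P ∘ₗ N ∘ₗ W.subtype)
      (by intro a b; rw [hWapp, hWapp]; exact hherm _ _)
      (by
        intro w hw
        have hw' : (w : V) ≠ 0 := by
          intro h0; exact hw (Subtype.ext h0)
        rw [hWapp]
        simp only [LinearMap.comp_apply, Submodule.subtype_apply]
        rw [hP, map_sub, map_smul, hWorth' w, smul_zero, sub_zero]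
        exact hpos _ hw')
      (by
        intro ν hν
        obtain ⟨w, hwe⟩ := hν.exists_hasEigenvector
        have hw0 : w ≠ 0 := hwe.2
        have hwV : (w : V) ≠ 0 := by
          intro h0; exact hw0 (Subtype.ext h0)
        have he := congrArg (fun z : W => (z : V)) hwe.apply_eq_smul
        simp only [LinearMap.comp_apply, Submodule.subtype_apply] at he
        rw [hP] at he
        set α := (h v v)⁻¹ * h v (N (w : V)) with hα
        have he' : N (w : V) = ν • (w : V) + α • v := by
          have : ((ν • w : W) : V) = ν • (w : V) := rfl
          rw [this] at he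
          rw [← he]; abel
        by_cases hνμ : ν = μ
        · rw [hνμ]; exact hμ0
        · have hsub : ν - μ ≠ 0 := sub_ne_zero.2 hνμ
          apply heig ν
          have hx0 : (w : V) + (α / (ν - μ)) • v ≠ 0 := by
            intro h0
            have h2 := congrArg (h v) h0
            rw [map_add, map_smul, hWorth w, map_zero, zero_add, smul_eq_mul] at h2
            have hβ : α / (ν - μ) = 0 := by
              rcases mul_eq_zero.1 h2 with h3 | h3
              · exact h3
              · exact absurd h3 hvvne
            rw [hβ, zero_smul, add_zero] at h0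
            exact hwV h0
          apply End.hasEigenvalue_of_hasEigenvector (x := (w : V) + (α / (ν - μ)) • v)
          refine ⟨?_, hx0⟩
          rw [End.mem_eigenspace_iff, map_add, map_smul, he', hNv, smul_add, add_assoc]
          congr 1
          rw [smul_smul, smul_smul, ← add_smul]
          congr 1
          field_simp
          ring)
    -- decompose x
    set c := (h v v)⁻¹ * h v x with hc
    have hxdec : x = c • v + ((P x : W) : V) := by
      rw [hP]; abel
    set w := P x with hwdef
    have hxx : h x x = (starRingEnd ℂ c * c) * h v v + h (w : V) (w : V) := by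
      conv_lhs => rw [hxdec]
      simp only [map_add, LinearMap.add_apply, map_smul, map_smulₛₗ, LinearMap.smul_apply,
        smul_eq_mul, hWorth w, hWorth' w]
      ring
    have hxxre : (h x x).re = Complex.normSq c * (h v v).re + (h (w : V) (w : V)).re := by
      rw [hxx, Complex.add_re, mul_comm ((starRingEnd ℂ) c) c, Complex.mul_conj, Complex.re_ofReal_mul]
    rw [hxxre]
    by_cases hw : w = 0
    · have hcne : c ≠ 0 := by
        intro h0
        apply hx
        rw [hxdec, h0, hw]; simp
      have := Complex.normSq_pos.2 hcne
      rw [hw]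
      simp only [ZeroMemClass.coe_zero, map_zero, Complex.zero_re, add_zero]
      exact mul_neg_of_pos_of_neg this hvv
    · have := key w hw
      rw [hWapp] at this
      have h2 := Complex.normSq_nonneg c
      nlinarith

end Pool.Agent.X101.Inertia
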