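import Mathlib
import Pool.Agent.X101.Inertia

/-! Eigenvalue localisation for `A - Y` used for MP_25d917_an. -/

namespace Pool.Agent.X101.Inertia

open Module Complex

/-- pigeonhole: a free half-open interval -/
theorem exists_gap {n : ℕ} (y : Fin n → ℝ) (i0 : Fin n) (D : ℝ) (hD : 0 < D) :
    ∃ k : ℕ, k < n ∧ ∀ i, y i ≤ y i0 + k * D ∨ y i0 + (k + 1) * D < y i := by
  by_contra hcon
  push Not at hcon
  choose f hf1 hf2 using fun k : Fin n => hcon k.1 k.2
  have hinj : Function.Injective f := by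
    intro k l hkl
    by_contra hne
    rcases lt_or_gt_of_ne hne with h | h
    · have h1 : ((k : ℕ) : ℝ) + 1 ≤ ((l : ℕ) : ℝ) := by exact_mod_cast h
      have h2 := hf2 k
      have h3 := hf1 l
      rw [hkl] at h2
      nlinarith
    · have h1 : ((l : ℕ) : ℝ) + 1 ≤ ((k : ℕ) : ℝ) := by exact_mod_cast h
      have h2 := hf2 l
      have h3 := hf1 k
      rw [← hkl] at h2
      nlinarith
  have hsurj : Function.Surjective f := Finite.surjective_of_injective hinj
  obtain ⟨k, hk⟩ := hsurj i0
  have h1 := hf1 k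
  rw [hk] at h1
  have h2 : (0 : ℝ) ≤ ((k : ℕ) : ℝ) := Nat.cast_nonneg _
  nlinarith

/-- main localisation lemma -/
theorem exists_eigenvalue_re_ge {n : ℕ} (b : OrthonormalBasis (Fin n) ℂ (EuclideanSpace ℂ (Fin n)))
    (y : Fin n → ℝ) (A Y : EuclideanSpace ℂ (Fin n) →ₗ[ℂ] EuclideanSpace ℂ (Fin n))
    (hY : ∀ i, Y (b i) = (y i : ℂ) • b i) (r D : ℝ) (hr : 0 ≤ r) (hD : 2 * r < D)
    (hA : ∀ x, ‖A x‖ ≤ r * ‖x‖) (i0 : Fin n) :
    ∃ ν : ℂ, End.HasEigenvalue (A - Y) ν ∧ -(y i0 + (n - 1 / 2) * D) ≤ ν.re := by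
  have hD0 : 0 < D := by linarith
  obtain ⟨k, hkn, hk⟩ := exists_gap y i0 D hD0
  set c : ℝ := y i0 + (k + 1 / 2) * D with hc
  let ε : Fin n → ℝ := fun i => if y i < c then 1 else -1
  have hε : ∀ i, D / 2 ≤ ε i * (c - y i) := by
    intro i
    rcases hk i with h | h
    · have h1 : y i < c := by rw [hc]; nlinarith
      simp only [ε, if_pos h1]
      rw [hc]; nlinarith
    · have h1 : ¬ y i < c := by rw [hc]; push Not; nlinarith
      simp only [ε, if_neg h1]
      rw [hc]; nlinarith
  have hεabs : ∀ i, |ε i| = 1 := by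
    intro i
    simp only [ε]
    split_ifs <;> simp
  let h : EuclideanSpace ℂ (Fin n) →ₗ⋆[ℂ] EuclideanSpace ℂ (Fin n) →ₗ[ℂ] ℂ :=
    LinearMap.mk₂'ₛₗ (starRingEnd ℂ) (RingHom.id ℂ)
      (fun x z => ∑ i, (ε i : ℂ) * (starRingEnd ℂ (b.repr x i)) * b.repr z i)
      (by intro x x' z; simp [mul_add, add_mul, Finset.sum_add_distrib])
      (by intro a x z; simp only [map_smul, PiLp.smul_apply, smul_eq_mul, map_mul, Finset.mul_sum]
          refine Finset.sum_congr rfl fun i _ => by ring)
      (by intro x z z'; simp [mul_add, Finset.sum_add_distrib])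
      (by intro a x z
          simp only [map_smul, PiLp.smul_apply, smul_eq_mul, RingHom.id_apply, Finset.mul_sum]
          refine Finset.sum_congr rfl fun i _ => by ring)
  have happ : ∀ x z, h x z = ∑ i, (ε i : ℂ) * (starRingEnd ℂ (b.repr x i)) * b.repr z i :=
    fun x z => rfl
  have hYrepr : ∀ x i, b.repr (Y x) i = (y i : ℂ) * b.repr x i := by
    intro x i
    have h1 : Y x = ∑ j, (b.repr x j * (y j : ℂ)) • b j := by
      conv_lhs => rw [← b.sum_repr x]
      rw [map_sum]
      refine Finset.sum_congr rfl fun j _ => ?_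
      rw [map_smul, hY, smul_smul]
    rw [h1, map_sum]
    simp only [map_smul, b.repr_self]
    rw [WithLp.ofLp_sum, Finset.sum_apply, Finset.sum_eq_single i]
    · simp [mul_comm]
    · intro j _ hj
      simp [Ne.symm hj]
    · simp
  have hnorm : ∀ x, ‖x‖ ^ 2 = ∑ i, ‖b.repr x i‖ ^ 2 := by
    intro x
    rw [← b.repr.norm_map x, EuclideanSpace.norm_sq_eq]
  let N : EuclideanSpace ℂ (Fin n) →ₗ[ℂ] EuclideanSpace ℂ (Fin n) :=
    (A - Y) + (c : ℂ) • LinearMap.id
  have hNapp : ∀ x, N x = A x - Y x + (c : ℂ) • x := fun x => rfl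
  by_contra hcon
  push Not at hcon
  have key := neg_def_of_eigenvalues _ (EuclideanSpace ℂ (Fin n)) rfl h N
    (by
      intro x z
      rw [happ, happ, map_sum]
      refine Finset.sum_congr rfl fun i _ => ?_
      simp only [map_mul, Complex.conj_ofReal, Complex.conj_conj]
      ring)
    (by
      intro x hx
      have hxpos : 0 < ‖x‖ := norm_pos_iff.2 hx
      have h1 : (h x (N x)).re = ∑ i, (ε i * ((starRingEnd ℂ (b.repr x i)) * b.repr (A x) i).re
          + ε i * (c - y i) * ‖b.repr x i‖ ^ 2) := by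
        rw [happ, Complex.re_sum]
        refine Finset.sum_congr rfl fun i _ => ?_
        rw [hNapp]
        have h2 : b.repr (A x - Y x + (c : ℂ) • x) i
            = b.repr (A x) i + ((c - y i : ℝ) : ℂ) * b.repr x i := by
          rw [map_add, map_sub, map_smul]
          simp only [PiLp.add_apply, PiLp.sub_apply, PiLp.smul_apply, smul_eq_mul]
          rw [hYrepr]
          push_cast
          ring
        rw [h2]
        have h3 : (ε i : ℂ) * (starRingEnd ℂ (b.repr x i)) *
            (b.repr (A x) i + ((c - y i : ℝ) : ℂ) * b.repr x i)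
            = ((ε i : ℝ) : ℂ) * ((starRingEnd ℂ (b.repr x i)) * b.repr (A x) i)
              + ((ε i * (c - y i) : ℝ) : ℂ) * ((b.repr x i) * starRingEnd ℂ (b.repr x i)) := by
          push_cast
          ring
        rw [h3, Complex.add_re, Complex.re_ofReal_mul, Complex.re_ofReal_mul, Complex.mul_conj,
          Complex.ofReal_re, Complex.normSq_eq_norm_sq]
      rw [h1, Finset.sum_add_distrib]
      have h4 : -(‖x‖ * ‖A x‖) ≤ ∑ i, ε i * ((starRingEnd ℂ (b.repr x i)) * b.repr (A x) i).re := by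
        have h5 : ∑ i, -(‖b.repr x i‖ * ‖b.repr (A x) i‖) ≤
            ∑ i, ε i * ((starRingEnd ℂ (b.repr x i)) * b.repr (A x) i).re := by
          refine Finset.sum_le_sum fun i _ => ?_
          have h6 : |ε i * ((starRingEnd ℂ (b.repr x i)) * b.repr (A x) i).re|
              ≤ ‖b.repr x i‖ * ‖b.repr (A x) i‖ := by
            rw [abs_mul, hεabs, one_mul]
            calc _ ≤ ‖(starRingEnd ℂ (b.repr x i)) * b.repr (A x) i‖ := Complex.abs_re_le_norm _
              _ = _ := by rw [norm_mul, RCLike.norm_conj]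
          exact (abs_le.1 h6).1
        have h7 : ∑ i, ‖b.repr x i‖ * ‖b.repr (A x) i‖ ≤ ‖x‖ * ‖A x‖ := by
          refine (Real.sum_mul_le_sqrt_mul_sqrt _ _ _).trans (le_of_eq ?_)
          rw [← hnorm, ← hnorm, Real.sqrt_sq (norm_nonneg _), Real.sqrt_sq (norm_nonneg _)]
        rw [Finset.sum_neg_distrib] at h5
        linarith
      have h8 : D / 2 * ‖x‖ ^ 2 ≤ ∑ i, ε i * (c - y i) * ‖b.repr x i‖ ^ 2 := by
        rw [hnorm, Finset.mul_sum]
        exact Finset.sum_le_sum fun i _ => mul_le_mul_of_nonneg_right (hε i) (sq_nonneg _)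
      have h9 := hA x
      have h10 : 0 < (D / 2 - r) * ‖x‖ ^ 2 := by
        apply mul_pos
        · linarith
        · positivity
      nlinarith)
    (by
      intro μ hμ
      obtain ⟨v, hv⟩ := hμ.exists_hasEigenvector
      have h1 : End.HasEigenvalue (A - Y) (μ - c) := by
        apply End.hasEigenvalue_of_hasEigenvector (x := v)
        refine ⟨?_, hv.2⟩
        rw [End.mem_eigenspace_iff]
        have h2 := hv.apply_eq_smul
        rw [hNapp] at h2
        rw [LinearMap.sub_apply, sub_smul, ← h2]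
        abel
      have h3 := hcon _ h1
      have h4 : (μ - (c : ℂ)).re = μ.re - c := by simp
      rw [h4] at h3
      have h5 : ((k : ℕ) : ℝ) + 1 ≤ n := by exact_mod_cast hkn
      rw [hc] at h3
      nlinarith)
    (b i0) (b.orthonormal.ne_zero i0)
  have h2 : (h (b i0) (b i0)).re = ε i0 := by
    rw [happ, Finset.sum_eq_single i0]
    · simp
    · intro j _ hj
      simp [Ne.symm hj]
    · simp
  rw [h2] at key
  have h3 : ε i0 = 1 := by
    have h4 : y i0 < c := by
      rw [hc]
      have : (0 : ℝ) ≤ (k : ℝ) := Nat.cast_nonneg _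
      nlinarith
    simp only [ε, if_pos h4]
  rw [h3] at key
  norm_num at key

end Pool.Agent.X101.Inertia
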