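import Mathlib
import Pool.Agent.X101.Local

/-! Matrix-level lemmas used for MP_25d917_an. -/

namespace Pool.Agent.X101.Inertia

open Module Complex Matrix

theorem repr_diag {n : ℕ} (b : OrthonormalBasis (Fin n) ℂ (EuclideanSpace ℂ (Fin n)))
    (s : Fin n → ℂ) (S : EuclideanSpace ℂ (Fin n) →ₗ[ℂ] EuclideanSpace ℂ (Fin n))
    (hS : ∀ i, S (b i) = s i • b i) (x : EuclideanSpace ℂ (Fin n)) (i : Fin n) :
    b.repr (S x) i = s i * b.repr x i := by
  have h1 : S x = ∑ j, (b.repr x j * s j) • b j := by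
    conv_lhs => rw [← b.sum_repr x]
    rw [map_sum]
    refine Finset.sum_congr rfl fun j _ => ?_
    rw [map_smul, hS, smul_smul]
  rw [h1, map_sum]
  simp only [map_smul, b.repr_self]
  rw [WithLp.ofLp_sum, Finset.sum_apply, Finset.sum_eq_single i]
  · simp [mul_comm]
  · intro j _ hj
    simp [Ne.symm hj]
  · simp

theorem norm_sq_repr {n : ℕ} (b : OrthonormalBasis (Fin n) ℂ (EuclideanSpace ℂ (Fin n)))
    (x : EuclideanSpace ℂ (Fin n)) : ‖x‖ ^ 2 = ∑ i, ‖b.repr x i‖ ^ 2 := by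
  rw [← b.repr.norm_map x, EuclideanSpace.norm_sq_eq]

theorem norm_diag_le {n : ℕ} (b : OrthonormalBasis (Fin n) ℂ (EuclideanSpace ℂ (Fin n)))
    (s : Fin n → ℂ) (S : EuclideanSpace ℂ (Fin n) →ₗ[ℂ] EuclideanSpace ℂ (Fin n))
    (hS : ∀ i, S (b i) = s i • b i) (r : ℝ) (hr : 0 ≤ r) (hs : ∀ i, ‖s i‖ ≤ r)
    (x : EuclideanSpace ℂ (Fin n)) : ‖S x‖ ≤ r * ‖x‖ := by
  have h1 : ‖S x‖ ^ 2 ≤ (r * ‖x‖) ^ 2 := by
    rw [mul_pow, norm_sq_repr b, norm_sq_repr b, Finset.mul_sum]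
    refine Finset.sum_le_sum fun i _ => ?_
    rw [repr_diag b s S hS, norm_mul, mul_pow]
    exact mul_le_mul_of_nonneg_right (pow_le_pow_left₀ (norm_nonneg _) (hs i) 2) (sq_nonneg _)
  exact le_of_sq_le_sq h1 (by positivity)

theorem le_norm_diag {n : ℕ} (b : OrthonormalBasis (Fin n) ℂ (EuclideanSpace ℂ (Fin n)))
    (s : Fin n → ℂ) (S : EuclideanSpace ℂ (Fin n) →ₗ[ℂ] EuclideanSpace ℂ (Fin n))
    (hS : ∀ i, S (b i) = s i • b i) (r : ℝ) (hr : 0 ≤ r) (x : EuclideanSpace ℂ (Fin n))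
    (hx : x ≠ 0) (hle : ‖S x‖ ≤ r * ‖x‖) : ∃ i, ‖s i‖ ≤ r := by
  by_contra hcon
  push Not at hcon
  have h1 : (r * ‖x‖) ^ 2 < ‖S x‖ ^ 2 := by
    rw [mul_pow, norm_sq_repr b, norm_sq_repr b, Finset.mul_sum]
    have hex : ∃ i, b.repr x i ≠ 0 := by
      by_contra h0
      push Not at h0
      apply hx
      have h2 := norm_sq_repr b x
      simp only [h0, norm_zero, ne_eq, OfNat.ofNat_ne_zero, not_false_eq_true, zero_pow,
        Finset.sum_const_zero] at h2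
      exact norm_eq_zero.1 (by simpa using h2)
    obtain ⟨i0, hi0⟩ := hex
    refine Finset.sum_lt_sum (fun i _ => ?_) ⟨i0, Finset.mem_univ _, ?_⟩
    · rw [repr_diag b s S hS, norm_mul, mul_pow]
      exact mul_le_mul_of_nonneg_right (pow_le_pow_left₀ hr (hcon i).le 2) (sq_nonneg _)
    · rw [repr_diag b s S hS, norm_mul, mul_pow]
      exact mul_lt_mul_of_pos_right (pow_lt_pow_left₀ (hcon i0) hr two_ne_zero)
        (by have := norm_pos_iff.2 hi0; positivity)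
  have h2 := pow_le_pow_left₀ (norm_nonneg _) hle 2
  linarith

/-- centring a skew-Hermitian matrix -/
theorem skew_centred {n : ℕ} (hn : 0 < n) (A : Matrix (Fin n) (Fin n) ℂ) (hA : Aᴴ = -A) (Δ : ℝ)
    (hΔ : ∀ ν ∈ spectrum ℂ A, ∀ μ ∈ spectrum ℂ A, ‖ν - μ‖ ≤ Δ) :
    ∃ a : ℝ, ∀ x : EuclideanSpace ℂ (Fin n),
      ‖Matrix.toEuclideanCLM (𝕜 := ℂ) A x - (a * I : ℂ) • x‖ ≤ Δ / 2 * ‖x‖ := by
  have hH : ((-I) • A).IsHermitian := by
    rw [Matrix.IsHermitian, Matrix.conjTranspose_smul, hA]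
    simp
  set b := hH.eigenvectorBasis with hb
  set h := hH.eigenvalues with hh
  have hAv : ∀ j, Matrix.toEuclideanCLM (𝕜 := ℂ) A (b j) = (I * (h j : ℂ)) • b j := by
    intro j
    have h1 := hH.mulVec_eigenvectorBasis j
    rw [Matrix.smul_mulVec] at h1
    have h2 : A *ᵥ (b j).ofLp = (I * (h j : ℂ)) • (b j).ofLp := by
      have h3 := congrArg (fun z => I • z) h1
      simp only [smul_smul] at h3
      rw [show I * -I = 1 by rw [mul_neg, I_mul_I, neg_neg], one_smul] at h3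
      rw [h3]
      ext i
      simp [mul_assoc, b, h]
    apply (WithLp.ofLp_injective 2)
    rw [Matrix.ofLp_toEuclideanCLM, h2]
    rfl
  have hspec : ∀ j, (I * (h j : ℂ)) ∈ spectrum ℂ A := by
    intro j
    rw [← Matrix.spectrum_toLin', ← End.hasEigenvalue_iff_mem_spectrum]
    apply End.hasEigenvalue_of_hasEigenvector (x := (b j).ofLp)
    refine ⟨?_, ?_⟩
    · rw [End.mem_eigenspace_iff, Matrix.toLin'_apply]
      have := congrArg WithLp.ofLp (hAv j)
      rw [Matrix.ofLp_toEuclideanCLM] at this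
      exact this
    · intro h0
      exact b.orthonormal.ne_zero j (WithLp.ofLp_injective 2 h0)
  haveI : Nonempty (Fin n) := ⟨⟨0, hn⟩⟩
  obtain ⟨j1, hj1⟩ := Finite.exists_max h
  obtain ⟨j2, hj2⟩ := Finite.exists_min h
  have hd : h j1 - h j2 ≤ Δ := by
    have h1 := hΔ _ (hspec j1) _ (hspec j2)
    rw [← mul_sub, norm_mul, norm_I, one_mul, ← Complex.ofReal_sub, Complex.norm_real] at h1
    exact (le_abs_self _).trans h1
  refine ⟨(h j1 + h j2) / 2, fun x => ?_⟩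
  have hΔ0 : 0 ≤ Δ := by linarith [hj1 j2]
  have h1 := norm_diag_le b (fun j => I * (h j : ℂ) - ((((h j1 + h j2) / 2 : ℝ) : ℂ) * I))
    ((Matrix.toEuclideanCLM (𝕜 := ℂ) A : EuclideanSpace ℂ (Fin n) →L[ℂ] _).toLinearMap
      - ((((h j1 + h j2) / 2 : ℝ) : ℂ) * I) • LinearMap.id)
    (by
      intro i
      simp only [LinearMap.sub_apply, ContinuousLinearMap.coe_coe, LinearMap.smul_apply,
        LinearMap.id_apply]
      rw [hAv, sub_smul])
    (Δ / 2) (by linarith)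
    (by
      intro i
      have h2 : I * (h i : ℂ) - ((((h j1 + h j2) / 2 : ℝ) : ℂ) * I)
          = ((h i - (h j1 + h j2) / 2 : ℝ) : ℂ) * I := by push_cast; ring
      rw [h2, norm_mul, norm_I, mul_one, Complex.norm_real, Real.norm_eq_abs, abs_le]
      have h3 := hj1 i
      have h4 := hj2 i
      constructor <;> linarith) x
  exact h1

end Pool.Agent.X101.Inertia
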