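import Mathlib

/-! A colon theorem: if `y = a x` and all mixed sequences are regular, then
`(y) : (x) = (y) + (det a)` and `det a` has no multiples in `(y)` except those by elements of
`(x)`. -/

namespace Pool.Agent.X101.Colon

open Matrix

variable {R : Type*} [CommRing R] {ι : Type*} [Fintype ι] [DecidableEq ι]

/-- `r` is a non-zero-divisor modulo `K`. -/
def NzdMod (K : Ideal R) (r : R) : Prop := ∀ w, r * w ∈ K → w ∈ K

/-- the rows in `T` from `a`, the others from the identity matrix -/
def MT (a : Matrix ι ι R) (T : Finset ι) : Matrix ι ι R :=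
  fun i => if i ∈ T then a i else Pi.single i 1

/-- the mixed sequence -/
def yT (x y : ι → R) (T : Finset ι) : ι → R := fun i => if i ∈ T then y i else x i

/-- the ideal generated by the mixed sequence without its entry `r` -/
def KT (x y : ι → R) (T : Finset ι) (r : ι) : Ideal R := Ideal.span (yT x y T '' {i | i ≠ r})

omit [Fintype ι] in
lemma KT_insert (x y : ι → R) (T : Finset ι) (r : ι) : KT x y (insert r T) r = KT x y T r := by
  unfold KT
  congr 1
  refine Set.image_congr fun i hi => ?_
  have hi' : i ≠ r := hi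
  simp [yT, Finset.mem_insert, hi']

omit [Fintype ι] in
lemma span_range (x y : ι → R) (T : Finset ι) (r : ι) :
    Ideal.span (Set.range (yT x y T)) = KT x y T r ⊔ Ideal.span {yT x y T r} := by
  unfold KT
  rw [← Ideal.span_union]
  congr 1
  ext v
  simp only [Set.mem_range, Set.mem_union, Set.mem_image, Set.mem_setOf_eq, Set.mem_singleton_iff]
  constructor
  · rintro ⟨i, rfl⟩
    by_cases hi : i = r
    · right; rw [hi]
    · left; exact ⟨i, hi, rfl⟩
  · rintro (⟨i, _, rfl⟩ | h)
    · exact ⟨i, rfl⟩
    · exact ⟨r, h.symm⟩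

lemma mulVec_MT {a : Matrix ι ι R} {x y : ι → R} (h : a *ᵥ x = y) (T : Finset ι) :
    MT a T *ᵥ x = yT x y T := by
  funext i
  have hi : (a *ᵥ x) i = y i := by rw [h]
  simp only [MT, yT, Matrix.mulVec]
  split_ifs with hT
  · exact hi
  · simp

omit [Fintype ι] in
lemma MT_insert (a : Matrix ι ι R) {T : Finset ι} {r : ι} (hr : r ∉ T) :
    MT a T = (MT a (insert r T)).updateRow r (Pi.single r 1) := by
  funext i
  by_cases hi : i = r
  · subst hi
    rw [Matrix.updateRow_self]
    simp [MT, hr]
  · rw [Matrix.updateRow_ne hi]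
    simp [MT, Finset.mem_insert, hi]

lemma key {a : Matrix ι ι R} {x y : ι → R} (h : a *ᵥ x = y) {T : Finset ι} {r : ι} (hr : r ∉ T) :
    (MT a (insert r T)).det * x r - (MT a T).det * y r ∈ KT x y T r := by
  rw [← KT_insert]
  set M := MT a (insert r T) with hM
  set v := yT x y (insert r T) with hv
  have h1 : M *ᵥ x = v := mulVec_MT h _
  have h2 : (adjugate M *ᵥ v) r = M.det * x r := by
    rw [← h1, Matrix.mulVec_mulVec, Matrix.adjugate_mul, Matrix.smul_mulVec, Matrix.one_mulVec]
    simp
  have h3 : adjugate M r r = (MT a T).det := by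
    rw [Matrix.adjugate_apply, MT_insert a hr]
  have h4 : (adjugate M *ᵥ v) r = adjugate M r r * v r + ∑ i ∈ Finset.univ.erase r,
      adjugate M r i * v i := by
    rw [Matrix.mulVec, dotProduct, ← Finset.add_sum_erase _ _ (Finset.mem_univ r)]
  have h5 : v r = y r := by simp [hv, yT]
  rw [← h2, h4, h3, h5, add_sub_cancel_left]
  refine Ideal.sum_mem _ fun i hi => ?_
  refine Ideal.mul_mem_left _ _ (Ideal.subset_span ⟨i, ?_, rfl⟩)
  exact Finset.ne_of_mem_erase hi

/-- the colon theorem -/
theorem colon {a : Matrix ι ι R} {x y : ι → R} (h : a *ᵥ x = y)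
    (hx : ∀ (T : Finset ι) (r : ι), r ∉ T → NzdMod (KT x y T r) (x r))
    (hy : ∀ (T : Finset ι) (r : ι), r ∉ T → NzdMod (KT x y T r) (y r)) (T : Finset ι) :
    ∀ w, (∀ j, w * x j ∈ Ideal.span (Set.range (yT x y T))) →
      ∃ s, w - s * (MT a T).det ∈ Ideal.span (Set.range (yT x y T)) := by
  induction T using Finset.induction_on with
  | empty =>
    intro w _
    refine ⟨w, ?_⟩
    have : MT a ∅ = 1 := by
      funext i
      simp only [MT, Finset.notMem_empty, if_false]
      funext j
      rw [Matrix.one_apply, Pi.single_apply]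
      simp [eq_comm]
    rw [this, Matrix.det_one, mul_one, sub_self]
    exact Ideal.zero_mem _
  | insert r T hr ih =>
    intro w hw
    set K := KT x y T r with hK
    have hS : Ideal.span (Set.range (yT x y (insert r T))) = K ⊔ Ideal.span {y r} := by
      rw [span_range x y (insert r T) r, KT_insert]
      congr 3
      simp [yT]
    have hS0 : Ideal.span (Set.range (yT x y T)) = K ⊔ Ideal.span {x r} := by
      rw [span_range x y T r]
      congr 3
      simp [yT, hr]
    rw [hS] at hw ⊢
    rw [hS0] at ih
    -- w x_j ≡ v_j y_r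
    have h1 : ∀ j, ∃ vj, w * x j - vj * y r ∈ K := by
      intro j
      obtain ⟨k, hk, z, hz, hkz⟩ := Submodule.mem_sup.1 (hw j)
      obtain ⟨vj, rfl⟩ := Ideal.mem_span_singleton'.1 hz
      refine ⟨vj, ?_⟩
      rw [← hkz, add_sub_cancel_right]
      exact hk
    choose vv hvv using h1
    have h2 : ∀ j, vv r * x j ∈ K ⊔ Ideal.span {x r} := by
      intro j
      have h3 : y r * (vv r * x j - vv j * x r) ∈ K := by
        have e1 := Ideal.mul_mem_left K (x r) (hvv j)
        have e2 := Ideal.mul_mem_left K (x j) (hvv r)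
        have e3 := Ideal.sub_mem _ e1 e2
        have e4 : x r * (w * x j - vv j * y r) - x j * (w * x r - vv r * y r)
            = y r * (vv r * x j - vv j * x r) := by ring
        rwa [e4] at e3
      have h4 := hy T r hr _ h3
      refine Submodule.mem_sup.2 ⟨_, h4, vv j * x r, ?_, by ring⟩
      exact Ideal.mem_span_singleton'.2 ⟨vv j, rfl⟩
    obtain ⟨t, ht⟩ := ih (vv r) h2
    obtain ⟨k, hk, z, hz, hkz⟩ := Submodule.mem_sup.1 ht
    obtain ⟨s, rfl⟩ := Ideal.mem_span_singleton'.1 hz
    -- vv r = t D_T + s x_r + k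
    have hv : vv r = t * (MT a T).det + s * x r + k := by linear_combination -hkz
    refine ⟨t, Submodule.mem_sup.2 ⟨w - t * (MT a (insert r T)).det - s * y r, ?_, s * y r,
      Ideal.mem_span_singleton'.2 ⟨s, rfl⟩, by ring⟩⟩
    apply hx T r hr
    have e1 := hvv r
    have e2 := Ideal.mul_mem_left K t (key h hr)
    have e3 := Ideal.mul_mem_left K (y r) hk
    have e4 := Ideal.add_mem _ (Ideal.sub_mem _ e1 e2) e3
    have e5 : w * x r - vv r * y r - t * ((MT a (insert r T)).det * x r - (MT a T).det * y r)
        + y r * k = x r * (w - t * (MT a (insert r T)).det - s * y r) := by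
      rw [hv]; ring
    rwa [e5] at e4

/-- no multiples of the determinant -/
theorem det_colon {a : Matrix ι ι R} {x y : ι → R} (h : a *ᵥ x = y)
    (hy : ∀ (T : Finset ι) (r : ι), r ∉ T → NzdMod (KT x y T r) (y r)) (T : Finset ι) :
    ∀ q, q * (MT a T).det ∈ Ideal.span (Set.range (yT x y T)) →
      q ∈ Ideal.span (Set.range x) := by
  induction T using Finset.induction_on with
  | empty =>
    intro q hq
    have h1 : MT a ∅ = 1 := by
      funext i
      simp only [MT, Finset.notMem_empty, if_false]
      funext j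
      rw [Matrix.one_apply, Pi.single_apply]
      simp [eq_comm]
    have h2 : yT x y ∅ = x := by
      funext i; simp [yT]
    rwa [h1, Matrix.det_one, mul_one, h2] at hq
  | insert r T hr ih =>
    intro q hq
    apply ih
    set K := KT x y T r with hK
    have hS : Ideal.span (Set.range (yT x y (insert r T))) = K ⊔ Ideal.span {y r} := by
      rw [span_range x y (insert r T) r, KT_insert]
      congr 3
      simp [yT]
    have hS0 : Ideal.span (Set.range (yT x y T)) = K ⊔ Ideal.span {x r} := by
      rw [span_range x y T r]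
      congr 3
      simp [yT, hr]
    rw [hS] at hq
    rw [hS0]
    obtain ⟨k, hk, z, hz, hkz⟩ := Submodule.mem_sup.1 hq
    obtain ⟨v, rfl⟩ := Ideal.mem_span_singleton'.1 hz
    have h1 : y r * (q * (MT a T).det - v * x r) ∈ K := by
      have e1 := Ideal.mul_mem_left K q (key h hr)
      have e2 := Ideal.mul_mem_left K (x r) hk
      have e3 := Ideal.sub_mem _ e2 e1
      have e4 : x r * k - q * ((MT a (insert r T)).det * x r - (MT a T).det * y r)
          = y r * (q * (MT a T).det - v * x r) := by
        linear_combination (x r) * hkz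
      rwa [e4] at e3
    have h2 := hy T r hr _ h1
    exact Submodule.mem_sup.2 ⟨_, h2, v * x r, Ideal.mem_span_singleton'.2 ⟨v, rfl⟩, by ring⟩

end Pool.Agent.X101.Colon
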