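import Mathlib

/-! Forms given by their coefficient vectors, their Jacobian ideals and Hessian determinants. -/

namespace Pool.Agent.X101.Generic

open MvPolynomial

/-- exponent vectors of degree `d` in `n` variables -/
abbrev Expo (n d : ℕ) : Type := {α : Fin n →₀ ℕ // ∑ i, α i = d}

noncomputable instance (n d : ℕ) : Fintype (Expo n d) := by
  classical
  refine Fintype.ofInjective
    (fun α : Expo n d => (⟨α.1, by
      rw [Finset.mem_finsuppAntidiag]
      exact ⟨α.2, fun _ _ => Finset.mem_univ _⟩⟩ :
      {x // x ∈ Finset.finsuppAntidiag (Finset.univ : Finset (Fin n)) d})) ?_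
  intro α β h
  have := congrArg (fun x => x.1) h
  exact Subtype.ext this

noncomputable instance (n d : ℕ) : DecidableEq (Expo n d) := Classical.decEq _

variable {n d : ℕ}

/-- the form `∑ c_α z^α` with coefficient vector `c` -/
noncomputable def form (c : Expo n d → ℂ) : MvPolynomial (Fin n) ℂ :=
  ∑ α : Expo n d, monomial α.1 (c α)

/-- the Jacobian ideal of the form with coefficient vector `c` -/
noncomputable def jac (c : Expo n d → ℂ) : Ideal (MvPolynomial (Fin n) ℂ) :=
  Ideal.span (Set.range fun i => pderiv i (form c))

/-- the Hessian determinant of the form with coefficient vector `c` -/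
noncomputable def hess (c : Expo n d → ℂ) : MvPolynomial (Fin n) ℂ :=
  (Matrix.of fun i j => pderiv i (pderiv j (form c))).det

end Pool.Agent.X101.Generic
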