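import Mathlib
import Pool.Agent.X101.Colon
import Pool.Agent.X101.FormDefs

/-! The generic form, its partial derivatives and their regularity. -/

namespace Pool.Agent.X101.Generic

open MvPolynomial Pool.Agent.X101.Colon

/-- `d e_k` -/
noncomputable def ek (n d : ℕ) (k : Fin n) : Expo n d :=
  ⟨Finsupp.single k d, by simp⟩

variable {n d : ℕ}

/-- the ring of polynomial functions on the space of forms -/
abbrev A (n d : ℕ) : Type := MvPolynomial (Expo n d) ℂ

/-- `A[z]` -/
abbrev R (n d : ℕ) : Type := MvPolynomial (Fin n) (A n d)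

/-- the generic form -/
noncomputable def F (n d : ℕ) : R n d := ∑ α : Expo n d, monomial α.1 (X α)

lemma coeff_F (α : Fin n →₀ ℕ) (hα : ∑ i, α i = d) :
    coeff α (F n d) = X (⟨α, hα⟩ : Expo n d) := by
  unfold F
  rw [coeff_sum, Finset.sum_eq_single (⟨α, hα⟩ : Expo n d)]
  · simp
  · intro β _ hβ
    rw [coeff_monomial, if_neg]
    intro h
    exact hβ (Subtype.ext h)
  · simp

lemma coeff_F' (α : Fin n →₀ ℕ) (hα : ∑ i, α i ≠ d) : coeff α (F n d) = 0 := by
  unfold F
  rw [coeff_sum]
  refine Finset.sum_eq_zero fun β _ => ?_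
  rw [coeff_monomial, if_neg]
  rintro rfl
  exact hα β.2

lemma F_homog : (F n d).IsHomogeneous d := by
  unfold F
  refine IsHomogeneous.sum _ _ _ fun α _ => ?_
  refine isHomogeneous_monomial _ ?_
  rw [Finsupp.degree_eq_sum]
  exact α.2

/-- coefficientwise derivative -/
noncomputable def Dfun (t : Expo n d) (w : R n d) : R n d :=
  ∑ β ∈ w.support, monomial β (pderiv t (coeff β w))

lemma coeff_Dfun (t : Expo n d) (w : R n d) (β : Fin n →₀ ℕ) :
    coeff β (Dfun t w) = pderiv t (coeff β w) := by
  unfold Dfun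
  rw [coeff_sum]
  simp only [coeff_monomial]
  rw [Finset.sum_ite_eq']
  split_ifs with h
  · rfl
  · rw [notMem_support_iff.1 h, map_zero]

/-- coefficientwise derivative as an additive map -/
noncomputable def D (t : Expo n d) : R n d →+ R n d where
  toFun := Dfun t
  map_zero' := by
    ext1 β
    rw [coeff_Dfun]
    simp
  map_add' u v := by
    ext1 β
    rw [coeff_Dfun, coeff_add, coeff_add, coeff_Dfun, coeff_Dfun, map_add]

lemma coeff_D (t : Expo n d) (w : R n d) (β : Fin n →₀ ℕ) :
    coeff β (D t w) = pderiv t (coeff β w) := coeff_Dfun t w β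

lemma D_mul (t : Expo n d) (u v : R n d) : D t (u * v) = D t u * v + u * D t v := by
  ext1 β
  rw [coeff_D, coeff_add, coeff_mul, coeff_mul, coeff_mul, map_sum, ← Finset.sum_add_distrib]
  refine Finset.sum_congr rfl fun p _ => ?_
  rw [coeff_D, coeff_D, pderiv_mul]

lemma D_monomial (t : Expo n d) (β : Fin n →₀ ℕ) (a : A n d) :
    D t (monomial β a) = monomial β (pderiv t a) := by
  ext1 γ
  rw [coeff_D, coeff_monomial, coeff_monomial]
  split_ifs
  · rfl
  · rw [map_zero]

lemma D_X (t : Expo n d) (i : Fin n) : D t (X i) = 0 := by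
  rw [X, D_monomial]
  simp

lemma D_pderiv (t : Expo n d) (i : Fin n) (w : R n d) :
    D t (pderiv i w) = pderiv i (D t w) := by
  ext1 β
  rw [coeff_D, coeff_pderiv, coeff_pderiv, coeff_D, pderiv_mul]
  have h : pderiv t (((β i : ℕ) : A n d) + 1) = 0 := by
    rw [map_add, Derivation.map_natCast]
    simp
  rw [h, mul_zero, add_zero]

lemma D_F (t : Expo n d) : D t (F n d) = monomial t.1 1 := by
  ext1 β
  rw [coeff_D, coeff_monomial]
  by_cases hβ : ∑ i, β i = d
  · rw [coeff_F β hβ]
    by_cases h : t.1 = β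
    · subst h
      simp
    · rw [if_neg h, pderiv_X_of_ne]
      intro h'
      exact h (congrArg Subtype.val h').symm
  · rw [coeff_F' β hβ, map_zero, if_neg]
    rintro rfl
    exact hβ t.2

lemma pderiv_nilp (t : Expo n d) (a : A n d) : ∃ N, ∀ m, N ≤ m → (pderiv t)^[m] a = 0 := by
  induction a using MvPolynomial.induction_on' with
  | monomial s c =>
    have h : ∀ j, ∀ (s : Expo n d →₀ ℕ) (c : ℂ), s t = j → ∀ m, j + 1 ≤ m →
        (pderiv t)^[m] (monomial s c) = 0 := by
      intro j
      induction j with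
      | zero =>
        intro s c hs m hm
        obtain ⟨m, rfl⟩ : ∃ m', m = m' + 1 := ⟨m - 1, by omega⟩
        rw [Function.iterate_succ_apply, pderiv_monomial, hs]
        simp only [CharP.cast_eq_zero, mul_zero, map_zero]
        exact iterate_map_zero _ m
      | succ j ih =>
        intro s c hs m hm
        obtain ⟨m, rfl⟩ : ∃ m', m = m' + 1 := ⟨m - 1, by omega⟩
        rw [Function.iterate_succ_apply, pderiv_monomial]
        refine ih _ _ ?_ m (by omega)
        simp [hs]
    exact ⟨s t + 1, fun m hm => h _ s c rfl m hm⟩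
  | add p q hp hq =>
    obtain ⟨N1, h1⟩ := hp
    obtain ⟨N2, h2⟩ := hq
    refine ⟨max N1 N2, fun m hm => ?_⟩
    rw [iterate_map_add, h1 m (le_trans (le_max_left _ _) hm), h2 m (le_trans (le_max_right _ _) hm),
      add_zero]

lemma coeff_D_iter (t : Expo n d) (m : ℕ) : ∀ (w : R n d) (β : Fin n →₀ ℕ),
    coeff β ((D t)^[m] w) = (pderiv t)^[m] (coeff β w) := by
  induction m with
  | zero => intro w β; rfl
  | succ m ih =>
    intro w β
    rw [Function.iterate_succ_apply, Function.iterate_succ_apply, ih, coeff_D]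

lemma D_nilp (t : Expo n d) (w : R n d) : ∃ N, (D t)^[N] w = 0 := by
  choose N hN using fun β : Fin n →₀ ℕ => pderiv_nilp t (coeff β w)
  refine ⟨w.support.sup N, ?_⟩
  ext1 β
  rw [coeff_D_iter, coeff_zero]
  by_cases hβ : β ∈ w.support
  · exact hN β _ (Finset.le_sup hβ)
  · rw [notMem_support_iff.1 hβ]
    exact iterate_map_zero _ _

/-- the derivation criterion for non-zero-divisors -/
lemma nzd_of_derivation {R : Type*} [CommRing R] [Algebra ℚ R] (K : Ideal R) (D : R →+ R)
    (u z : R) (hu : ∀ w, D (u * w) = z * w + u * D w) (hz : ∀ w, D (z * w) = z * D w)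
    (hK : ∀ w ∈ K, D w ∈ K) (hnz : NzdMod K z) (hnil : ∀ w, ∃ N, D^[N] w = 0) : NzdMod K u := by
  intro w hw
  have h1 : ∀ m, D^[m] (u * w) ∈ K := by
    intro m
    induction m with
    | zero => exact hw
    | succ m ih =>
      rw [Function.iterate_succ_apply']
      exact hK _ ih
  have h2 : ∀ m, D^[m + 1] (u * w) = u * D^[m + 1] w + (m + 1 : ℕ) • (z * D^[m] w) := by
    intro m
    induction m with
    | zero =>
      simp only [zero_add, Function.iterate_one, Function.iterate_zero, id_eq, one_smul]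
      rw [hu]; ring
    | succ m ih =>
      rw [Function.iterate_succ_apply', ih, map_add, map_nsmul, hu, hz,
        ← Function.iterate_succ_apply' D, ← Function.iterate_succ_apply' D]
      simp only [nsmul_eq_mul]
      push_cast
      ring
  obtain ⟨N, hN⟩ := hnil w
  have h3 : ∀ j, D^[N - j] w ∈ K := by
    intro j
    induction j with
    | zero => rw [Nat.sub_zero, hN]; exact K.zero_mem
    | succ j ih =>
      by_cases hj : N ≤ j
      · have : N - (j + 1) = N - j := by omega
        rwa [this]
      · have he : N - j = (N - (j + 1)) + 1 := by omega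
        rw [he] at ih
        have h4 := h2 (N - (j + 1))
        have h5 := h1 (N - (j + 1) + 1)
        rw [h4] at h5
        have h6 := (Ideal.add_mem_iff_right K (K.mul_mem_left u ih)).1 h5
        apply hnz
        have h7 := K.mul_mem_left (algebraMap ℚ R (((N - (j + 1) + 1 : ℕ) : ℚ)⁻¹)) h6
        rw [nsmul_eq_mul, ← mul_assoc, ← map_natCast (algebraMap ℚ R), ← map_mul,
          inv_mul_cancel₀, map_one, one_mul] at h7
        · exact h7
        · exact_mod_cast Nat.succ_ne_zero (N - (j + 1))
  have h8 := h3 N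
  simpa using h8

lemma NzdMod.mul {R : Type*} [CommRing R] {K : Ideal R} {a b : R} (ha : NzdMod K a)
    (hb : NzdMod K b) : NzdMod K (a * b) := by
  intro w hw
  rw [mul_assoc] at hw
  exact hb _ (ha _ hw)

lemma NzdMod.pow {R : Type*} [CommRing R] {K : Ideal R} {a : R} (ha : NzdMod K a) (m : ℕ) :
    NzdMod K (a ^ m) := by
  induction m with
  | zero => intro w hw; simpa using hw
  | succ m ih => rw [pow_succ]; exact NzdMod.mul ih ha

lemma NzdMod.unit {R : Type*} [CommRing R] {K : Ideal R} {a b : R} (h : b * a = 1) :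
    NzdMod K a := by
  intro w hw
  have := K.mul_mem_left b hw
  rwa [← mul_assoc, h, one_mul] at this

/-- the scaled partial derivatives `(d-1) ∂_i F` -/
noncomputable def yy (n d : ℕ) (i : Fin n) : R n d := ((d - 1 : ℕ) : R n d) * pderiv i (F n d)

/-- the ideal generated by some variables and some partial derivatives -/
noncomputable def KK (U T : Finset (Fin n)) : Ideal (R n d) :=
  Ideal.span (X '' (U : Set (Fin n)) ∪ yy n d '' (T : Set (Fin n)))

lemma D_yy (k i : Fin n) : D (ek n d k) (yy n d i)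
    = if i = k then ((d - 1 : ℕ) : R n d) * ((d : ℕ) : R n d) * X k ^ (d - 1) else 0 := by
  unfold yy
  rw [D_mul, D_pderiv, D_F]
  have h0 : D (ek n d k) ((d - 1 : ℕ) : R n d) = 0 := by
    have : ((d - 1 : ℕ) : R n d) = monomial 0 ((d - 1 : ℕ) : A n d) := by
      rw [← C_apply, map_natCast]
    rw [this, D_monomial, Derivation.map_natCast, map_zero]
  rw [h0, zero_mul, zero_add]
  have h1 : (ek n d k).1 = Finsupp.single k d := rfl
  rw [h1]
  split_ifs with h
  · subst h
    rw [pderiv_monomial_single, one_mul, mul_assoc]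
    congr 1
    rw [X_pow_eq_monomial]
    have : ((d : ℕ) : R n d) = C ((d : ℕ) : A n d) := by rw [map_natCast]
    rw [this, C_mul_monomial, mul_one]
  · rw [pderiv_monomial]
    simp [Ne.symm h]

lemma D_mem_KK {U T : Finset (Fin n)} {k : Fin n} (hk : k ∉ T) (w : R n d) (hw : w ∈ KK U T) :
    D (ek n d k) w ∈ KK U T := by
  unfold KK at *
  induction hw using Submodule.span_induction with
  | mem x hx =>
    rcases hx with ⟨i, _, rfl⟩ | ⟨i, hi, rfl⟩
    · rw [D_X]; exact Ideal.zero_mem _
    · rw [D_yy, if_neg]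
      · exact Ideal.zero_mem _
      · rintro rfl
        exact hk hi
  | zero => rw [map_zero]; exact Ideal.zero_mem _
  | add x y _ _ hx hy => rw [map_add]; exact Ideal.add_mem _ hx hy
  | smul a x hx hx' =>
    rw [smul_eq_mul, D_mul]
    exact Ideal.add_mem _ (Ideal.mul_mem_left _ _ hx) (Ideal.mul_mem_left _ _ hx')

/-- `y_k` is regular if `z_k` is -/
lemma nzd_yy (hd : 2 ≤ d) {U T : Finset (Fin n)} {k : Fin n} (hk : k ∉ T)
    (hX : NzdMod (KK U T : Ideal (R n d)) (X k)) : NzdMod (KK U T : Ideal (R n d)) (yy n d k) := by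
  set z : R n d := ((d - 1 : ℕ) : R n d) * ((d : ℕ) : R n d) * X k ^ (d - 1) with hz
  have hDz : D (ek n d k) z = 0 := by
    rw [hz, X_pow_eq_monomial]
    have h1 : ((d - 1 : ℕ) : R n d) = C ((d - 1 : ℕ) : A n d) := by rw [map_natCast]
    have h2 : ((d : ℕ) : R n d) = C ((d : ℕ) : A n d) := by rw [map_natCast]
    rw [h1, h2, ← C_mul, C_mul_monomial, D_monomial, mul_one, pderiv_mul,
      Derivation.map_natCast, Derivation.map_natCast]
    simp
  refine nzd_of_derivation (KK U T) (D (ek n d k)) (yy n d k) z ?_ ?_ (fun w hw => D_mem_KK hk w hw)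
    ?_ (D_nilp _)
  · intro w
    rw [D_mul, D_yy, if_pos rfl]
  · intro w
    rw [D_mul, hDz, zero_mul, zero_add]
  · rw [hz]
    refine NzdMod.mul (NzdMod.mul ?_ ?_) (NzdMod.pow hX _)
    · refine NzdMod.unit (b := algebraMap ℚ (R n d) (((d - 1 : ℕ) : ℚ)⁻¹)) ?_
      rw [← map_natCast (algebraMap ℚ (R n d)), ← map_mul, inv_mul_cancel₀, map_one]
      have : d - 1 ≠ 0 := by omega
      exact_mod_cast this
    · refine NzdMod.unit (b := algebraMap ℚ (R n d) (((d : ℕ) : ℚ)⁻¹)) ?_
      rw [← map_natCast (algebraMap ℚ (R n d)), ← map_mul, inv_mul_cancel₀, map_one]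
      have : d ≠ 0 := by omega
      exact_mod_cast this

lemma KK_insert_right (U T : Finset (Fin n)) (m : Fin n) :
    (KK U (insert m T) : Ideal (R n d)) = KK U T ⊔ Ideal.span {yy n d m} := by
  unfold KK
  rw [← Ideal.span_union, Finset.coe_insert, Set.image_insert_eq, Set.union_assoc]
  congr 1
  ext v
  simp only [Set.mem_union, Set.mem_insert_iff, Set.mem_singleton_iff]
  tauto

lemma KK_insert_left (U T : Finset (Fin n)) (m : Fin n) :
    (KK (insert m U) T : Ideal (R n d)) = KK U T ⊔ Ideal.span {X m} := by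
  unfold KK
  rw [← Ideal.span_union, Finset.coe_insert, Set.image_insert_eq, Set.union_assoc]
  congr 1
  ext v
  simp only [Set.mem_union, Set.mem_insert_iff, Set.mem_singleton_iff]
  tauto

/-- `z_k` is regular modulo the mixed ideals -/
lemma nzd_X (hd : 2 ≤ d) (T : Finset (Fin n)) : ∀ (U : Finset (Fin n)) (k : Fin n),
    Disjoint U T → k ∉ U → k ∉ T → NzdMod (KK U T : Ideal (R n d)) (X k) := by
  induction T using Finset.induction_on with
  | empty =>
    intro U k _ hk _ w hw
    unfold KK at *
    simp only [Finset.coe_empty, Set.image_empty, Set.union_empty] at hw ⊢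
    rw [mem_ideal_span_X_image] at hw ⊢
    intro m hm
    have h1 : Finsupp.single k 1 + m ∈ (X k * w).support := by
      rw [mem_support_iff, coeff_X_mul]
      exact mem_support_iff.1 hm
    obtain ⟨i, hi, him⟩ := hw _ h1
    refine ⟨i, hi, ?_⟩
    have hne : k ≠ i := by
      rintro rfl
      exact hk hi
    simpa [Finsupp.single_apply, hne] using him
  | insert m T hm ih =>
    intro U k hUT hkU hkT w hw
    rw [Finset.disjoint_insert_right] at hUT
    rw [Finset.mem_insert, not_or] at hkT
    rw [KK_insert_right] at hw ⊢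
    obtain ⟨κ, hκ, v, hv, hkv⟩ := Submodule.mem_sup.1 hw
    obtain ⟨g, rfl⟩ := Ideal.mem_span_singleton'.1 hv
    have hdis : Disjoint (insert k U) T := by
      rw [Finset.disjoint_insert_left]
      exact ⟨hkT.2, hUT.2⟩
    have hmU : m ∉ insert k U := by
      rw [Finset.mem_insert, not_or]
      exact ⟨Ne.symm hkT.1, hUT.1⟩
    have h1 : NzdMod (KK (insert k U) T : Ideal (R n d)) (yy n d m) :=
      nzd_yy hd hm (ih (insert k U) m hdis hmU hm)
    have h2 : g ∈ (KK (insert k U) T : Ideal (R n d)) := by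
      apply h1
      have h3 : yy n d m * g = X k * w - κ := by linear_combination hkv
      rw [h3, KK_insert_left]
      refine Ideal.sub_mem _ ?_ ?_
      · exact Ideal.mem_sup_right (Ideal.mul_mem_right _ _ (Ideal.subset_span rfl))
      · exact Ideal.mem_sup_left hκ
    rw [KK_insert_left] at h2
    obtain ⟨κ', hκ', v', hv', hkv'⟩ := Submodule.mem_sup.1 h2
    obtain ⟨g', rfl⟩ := Ideal.mem_span_singleton'.1 hv'
    have h4 := ih U k hUT.2 hkU hkT.2 (w - g' * yy n d m) (by
      have h5 : X k * (w - g' * yy n d m) = κ + κ' * yy n d m := by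
        linear_combination -hkv - (yy n d m) * hkv'
      rw [h5]
      exact Ideal.add_mem _ hκ (Ideal.mul_mem_right _ _ hκ'))
    refine Submodule.mem_sup.2 ⟨_, h4, g' * yy n d m, Ideal.mem_span_singleton'.2 ⟨g', rfl⟩, by ring⟩

end Pool.Agent.X101.Generic
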