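import Mathlib
import Pool.Agent.X101.Generic

/-! Polynomials vanishing on the degenerate forms are in the saturation of the Jacobian ideal. -/

namespace Pool.Agent.X101.Generic

open MvPolynomial Pool.Agent.X101.Colon

variable {n d : ℕ}

/-- evaluation at a point and a coefficient vector -/
noncomputable def ev (p : Fin n → ℂ) (c : Expo n d → ℂ) : R n d →+* ℂ :=
  (eval p).comp (map (eval c))

lemma map_F (c : Expo n d → ℂ) : map (eval c) (F n d) = form c := by
  unfold F form
  rw [map_sum]
  refine Finset.sum_congr rfl fun α _ => ?_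
  rw [map_monomial, eval_X]

lemma ev_C (p : Fin n → ℂ) (c : Expo n d → ℂ) (a : A n d) : ev p c (C a) = eval c a := by
  simp [ev]

lemma ev_X (p : Fin n → ℂ) (c : Expo n d → ℂ) (i : Fin n) : ev p c (X i) = p i := by
  simp [ev]

lemma ev_F (p : Fin n → ℂ) (c : Expo n d → ℂ) :
    ev p c (F n d) = ∑ α : Expo n d, c α * eval p (monomial α.1 1) := by
  rw [ev, RingHom.comp_apply, map_F, form, map_sum]
  refine Finset.sum_congr rfl fun α _ => ?_
  rw [eval_monomial, eval_monomial, one_mul]

lemma ev_pderiv (p : Fin n → ℂ) (c : Expo n d → ℂ) (i : Fin n) :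
    ev p c (pderiv i (F n d)) = ∑ α : Expo n d, c α * eval p (pderiv i (monomial α.1 1)) := by
  rw [ev, RingHom.comp_apply, ← pderiv_map, map_F, form, map_sum, map_sum]
  refine Finset.sum_congr rfl fun α _ => ?_
  have h : (monomial α.1 (c α) : MvPolynomial (Fin n) ℂ) = C (c α) * monomial α.1 1 := by
    rw [C_mul_monomial, mul_one]
  rw [h, pderiv_C_mul, map_mul, eval_C]

lemma ev_pderiv' (p : Fin n → ℂ) (c : Expo n d → ℂ) (i : Fin n) :
    ev p c (pderiv i (F n d)) = eval p (pderiv i (form c)) := by
  rw [ev, RingHom.comp_apply, ← pderiv_map, map_F]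

/-- `Q` does not involve the coefficients of the monomials divisible by `z_j^(d-1)`. -/
def Free (j : Fin n) (Q : R n d) : Prop :=
  ∀ (p : Fin n → ℂ) (c c' : Expo n d → ℂ), (∀ α : Expo n d, α.1 j < d - 1 → c α = c' α) →
    ev p c Q = ev p c' Q

lemma Free.add {j : Fin n} {P Q : R n d} (hP : Free j P) (hQ : Free j Q) : Free j (P + Q) := by
  intro p c c' h
  rw [map_add, map_add, hP p c c' h, hQ p c c' h]

lemma Free.mul {j : Fin n} {P Q : R n d} (hP : Free j P) (hQ : Free j Q) : Free j (P * Q) := by
  intro p c c' h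
  rw [map_mul, map_mul, hP p c c' h, hQ p c c' h]

lemma Free.X_pow (j i : Fin n) (N : ℕ) : Free j (X i ^ N : R n d) := by
  intro p c c' _
  rw [map_pow, map_pow, ev_X, ev_X]

/-- the Jacobian ideal of the generic form -/
noncomputable def I (n d : ℕ) : Ideal (R n d) := Ideal.span (Set.range fun i => pderiv i (F n d))

lemma pderiv_mem (i : Fin n) : pderiv i (F n d) ∈ I n d := Ideal.subset_span ⟨i, rfl⟩

lemma F_mem (hd : 1 ≤ d) : F n d ∈ I n d := by
  have h := (F_homog (n := n) (d := d)).sum_X_mul_pderiv
  have h1 : d • F n d ∈ I n d := by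
    rw [← h]
    exact Ideal.sum_mem _ fun i _ => Ideal.mul_mem_left _ _ (pderiv_mem i)
  have h2 := (I n d).mul_mem_left (algebraMap ℚ (R n d) ((d : ℚ)⁻¹)) h1
  rw [nsmul_eq_mul, ← mul_assoc, ← map_natCast (algebraMap ℚ (R n d)), ← map_mul,
    inv_mul_cancel₀ (by exact_mod_cast (by omega : d ≠ 0)), map_one, one_mul] at h2
  exact h2

lemma ev_mem_I {p : Fin n → ℂ} {c : Expo n d → ℂ}
    (h : ∀ i, eval p (pderiv i (form c)) = 0) {w : R n d} (hw : w ∈ I n d) : ev p c w = 0 := by
  have h1 : I n d ≤ RingHom.ker (ev p c) := by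
    unfold I
    rw [Ideal.span_le]
    rintro _ ⟨i, rfl⟩
    change ev p c (pderiv i (F n d)) = 0
    rw [ev_pderiv', h]
  exact h1 hw

/-- structure of the exponents divisible by `z_j^(d-1)` -/
lemma eq_of_special {α : Expo n d} {j i : Fin n} (hd : 2 ≤ d) (hα : d - 1 ≤ α.1 j) (hij : i ≠ j)
    (hi : α.1 i ≠ 0) : α.1 = Finsupp.single j (d - 1) + Finsupp.single i 1 := by
  have hsum := α.2
  have h1 : α.1 j + α.1 i ≤ d := by
    conv_rhs => rw [← hsum]
    rw [← Finset.sum_pair (f := fun k => α.1 k) hij.symm]
    exact Finset.sum_le_sum_of_subset (Finset.subset_univ _)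
  have hj : α.1 j = d - 1 := by omega
  have hi1 : α.1 i = 1 := by omega
  ext k
  by_cases hkj : k = j
  · subst hkj
    simp [hj, hij.symm]
  · by_cases hki : k = i
    · subst hki
      simp [hi1, Ne.symm hkj]
    · have h2 : α.1 j + (α.1 i + α.1 k) ≤ d := by
        have h3 : ∑ l ∈ ({j, i, k} : Finset (Fin n)), α.1 l ≤ d := by
          conv_rhs => rw [← hsum]
          exact Finset.sum_le_sum_of_subset (Finset.subset_univ _)
        rw [Finset.sum_insert, Finset.sum_pair (Ne.symm hki)] at h3
        · exact h3
        · simp only [Finset.mem_insert, Finset.mem_singleton, not_or]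
          exact ⟨hij.symm, Ne.symm hkj⟩
      have h4 : α.1 k = 0 := by omega
      simp [h4, Ne.symm hkj, Ne.symm hki]

lemma eq_of_special' {α : Expo n d} {j : Fin n} (hα : α.1 j = d) :
    α.1 = Finsupp.single j d := by
  have hsum := α.2
  ext k
  by_cases hkj : k = j
  · subst hkj
    simp [hα]
  · have h1 : α.1 j + α.1 k ≤ d := by
      conv_rhs => rw [← hsum]
      rw [← Finset.sum_pair (f := fun k => α.1 k) (Ne.symm hkj)]
      exact Finset.sum_le_sum_of_subset (Finset.subset_univ _)
    have h2 : α.1 k = 0 := by omega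
    simp [h2, Ne.symm hkj]

/-- a special coefficient, multiplied by a power of `z_j`, is congruent to a free polynomial -/
lemma special (hd : 2 ≤ d) (j : Fin n) (α : Expo n d) :
    ∃ (N : ℕ) (Q : R n d), Free j Q ∧ C (X α) * X j ^ N - Q ∈ I n d := by
  by_cases hns : α.1 j < d - 1
  · refine ⟨0, C (X α), ?_, by simp⟩
    intro p c c' h
    rw [ev_C, ev_C, eval_X, eval_X, h α hns]
  · push Not at hns
    by_cases hjd : α.1 j = d
    · -- `α = d e_j`
      have hα := eq_of_special' hjd
      refine ⟨d, C (X α) * X j ^ d - (X j * pderiv j (F n d) - ((d - 1 : ℕ) : R n d) * F n d),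
        ?_, ?_⟩
      · intro p c c' h
        have hc : ∀ c : Expo n d → ℂ, ev p c (C (X α) * X j ^ d - (X j * pderiv j (F n d)
            - ((d - 1 : ℕ) : R n d) * F n d)) = c α * p j ^ d
            - ∑ γ : Expo n d, c γ * (p j * eval p (pderiv j (monomial γ.1 1))
              - ((d - 1 : ℕ) : ℂ) * eval p (monomial γ.1 1)) := by
          intro c
          rw [map_sub, map_mul, map_pow, map_sub, map_mul, map_mul, ev_C, ev_X, eval_X, ev_pderiv,
            ev_F, map_natCast, Finset.mul_sum, Finset.mul_sum, ← Finset.sum_sub_distrib]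
          congr 1
          refine Finset.sum_congr rfl fun γ _ => by ring
        rw [hc, hc, ← sub_eq_zero]
        have h1 : ∀ γ : Expo n d, p j * eval p (pderiv j (monomial γ.1 1))
            = (γ.1 j : ℂ) * eval p (monomial γ.1 1) := by
          intro γ
          have h2 := congrArg (eval p) (X_mul_pderiv_monomial (R := ℂ) (i := j) (m := γ.1) (r := 1))
          rw [map_mul, eval_X, nsmul_eq_mul, map_mul, map_natCast] at h2
          exact h2
        have h3 : ∑ γ : Expo n d, (c γ * (p j * eval p (pderiv j (monomial γ.1 1))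
              - ((d - 1 : ℕ) : ℂ) * eval p (monomial γ.1 1)))
            - ∑ γ : Expo n d, (c' γ * (p j * eval p (pderiv j (monomial γ.1 1))
              - ((d - 1 : ℕ) : ℂ) * eval p (monomial γ.1 1))) = (c α - c' α) * p j ^ d := by
          rw [← Finset.sum_sub_distrib, Finset.sum_eq_single α]
          · rw [h1, hjd, hα, eval_monomial]
            have h4 : ((d - 1 : ℕ) : ℂ) = (d : ℂ) - 1 := by
              rw [Nat.cast_sub (by omega)]; simp
            rw [h4]
            simp only [Finsupp.prod_single_index, pow_zero, one_mul]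
            ring
          · intro γ _ hγ
            by_cases hγs : γ.1 j < d - 1
            · rw [h γ hγs]; ring
            · have hle : γ.1 j ≤ d := by
                conv_rhs => rw [← γ.2]
                exact Finset.single_le_sum (f := fun k => γ.1 k) (fun _ _ => Nat.zero_le _)
                  (Finset.mem_univ j)
              have hne : γ.1 j ≠ d := by
                intro h5
                apply hγ
                apply Subtype.ext
                rw [hα, eq_of_special' h5]
              have h6 : γ.1 j = d - 1 := by omega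
              rw [h1, h6]; ring
          · intro hα'
            exact absurd (Finset.mem_univ _) hα'
        linear_combination -h3
      · have : C (X α) * X j ^ d - (C (X α) * X j ^ d
            - (X j * pderiv j (F n d) - ((d - 1 : ℕ) : R n d) * F n d))
            = X j * pderiv j (F n d) - ((d - 1 : ℕ) : R n d) * F n d := by ring
        rw [this]
        exact Ideal.sub_mem _ (Ideal.mul_mem_left _ _ (pderiv_mem j))
          (Ideal.mul_mem_left _ _ (F_mem (by omega)))
    · -- `α = (d-1) e_j + e_i`
      have hle : α.1 j ≤ d := by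
        conv_rhs => rw [← α.2]
        exact Finset.single_le_sum (f := fun k => α.1 k) (fun _ _ => Nat.zero_le _)
          (Finset.mem_univ j)
      have hj1 : α.1 j = d - 1 := by omega
      obtain ⟨i, hij, hi⟩ : ∃ i, i ≠ j ∧ α.1 i ≠ 0 := by
        by_contra hcon
        push Not at hcon
        have h1 : ∑ k, α.1 k = α.1 j := Finset.sum_eq_single j (fun k _ hk => hcon k hk)
          (fun hk => absurd (Finset.mem_univ _) hk)
        rw [α.2] at h1
        omega
      have hα := eq_of_special hd hns hij hi
      refine ⟨d - 1, C (X α) * X j ^ (d - 1) - pderiv i (F n d), ?_, ?_⟩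
      · intro p c c' h
        have hc : ∀ c : Expo n d → ℂ, ev p c (C (X α) * X j ^ (d - 1) - pderiv i (F n d))
            = c α * p j ^ (d - 1)
            - ∑ γ : Expo n d, c γ * eval p (pderiv i (monomial γ.1 1)) := by
          intro c
          rw [map_sub, map_mul, map_pow, ev_C, ev_X, eval_X, ev_pderiv]
        rw [hc, hc, ← sub_eq_zero]
        have h3 : ∑ γ : Expo n d, (c γ * eval p (pderiv i (monomial γ.1 1)))
            - ∑ γ : Expo n d, (c' γ * eval p (pderiv i (monomial γ.1 1)))
              = (c α - c' α) * p j ^ (d - 1) := by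
          rw [← Finset.sum_sub_distrib, Finset.sum_eq_single α]
          · rw [hα, pderiv_monomial]
            have h4 : (Finsupp.single j (d - 1) + Finsupp.single i 1 : Fin n →₀ ℕ)
                - Finsupp.single i 1 = Finsupp.single j (d - 1) := by
              rw [add_tsub_cancel_right]
            rw [h4, eval_monomial]
            simp only [Finsupp.coe_add, Pi.add_apply, Finsupp.prod_single_index, pow_zero]
            rw [Finsupp.single_eq_of_ne hij, Finsupp.single_eq_same]
            push_cast
            ring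
          · intro γ _ hγ
            by_cases hγs : γ.1 j < d - 1
            · rw [h γ hγs]; ring
            · push Not at hγs
              have h5 : γ.1 i = 0 := by
                by_contra h6
                apply hγ
                apply Subtype.ext
                rw [hα, eq_of_special hd hγs hij h6]
              rw [pderiv_monomial, h5]
              simp
          · intro hα'
            exact absurd (Finset.mem_univ _) hα'
        linear_combination -h3
      · rw [sub_sub_cancel]
        exact pderiv_mem i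

lemma reduce (hd : 2 ≤ d) (j : Fin n) (a : A n d) :
    ∃ (N : ℕ) (Q : R n d), Free j Q ∧ C a * X j ^ N - Q ∈ I n d := by
  induction a using MvPolynomial.induction_on with
  | C r =>
    refine ⟨0, C (C r), ?_, by simp⟩
    intro p c c' _
    rw [ev_C, ev_C, eval_C, eval_C]
  | add a b ha hb =>
    obtain ⟨N1, Q1, h1, h1'⟩ := ha
    obtain ⟨N2, Q2, h2, h2'⟩ := hb
    refine ⟨N1 + N2, Q1 * X j ^ N2 + Q2 * X j ^ N1,
      (h1.mul (Free.X_pow j j N2)).add (h2.mul (Free.X_pow j j N1)), ?_⟩
    have e : C (a + b) * X j ^ (N1 + N2) - (Q1 * X j ^ N2 + Q2 * X j ^ N1)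
        = X j ^ N2 * (C a * X j ^ N1 - Q1) + X j ^ N1 * (C b * X j ^ N2 - Q2) := by
      rw [C_add, pow_add]; ring
    rw [e]
    exact Ideal.add_mem _ (Ideal.mul_mem_left _ _ h1') (Ideal.mul_mem_left _ _ h2')
  | mul_X a α ha =>
    obtain ⟨N1, Q1, h1, h1'⟩ := ha
    obtain ⟨N2, Q2, h2, h2'⟩ := special hd j α
    refine ⟨N1 + N2, Q1 * Q2, h1.mul h2, ?_⟩
    have e : C (a * X α) * X j ^ (N1 + N2) - Q1 * Q2
        = (C (X α) * X j ^ N2) * (C a * X j ^ N1 - Q1) + Q1 * (C (X α) * X j ^ N2 - Q2) := by
      rw [C_mul, pow_add]; ring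
    rw [e]
    exact Ideal.add_mem _ (Ideal.mul_mem_left _ _ h1') (Ideal.mul_mem_left _ _ h2')

lemma form_of_coeff {h : MvPolynomial (Fin n) ℂ} (hh : h.IsHomogeneous d) :
    form (fun α : Expo n d => coeff α.1 h) = h := by
  ext β
  unfold form
  rw [coeff_sum]
  by_cases hβ : ∑ i, β i = d
  · rw [Finset.sum_eq_single (⟨β, hβ⟩ : Expo n d)]
    · simp
    · intro γ _ hγ
      rw [coeff_monomial, if_neg]
      intro h'
      exact hγ (Subtype.ext h')
    · intro h'
      exact absurd (Finset.mem_univ _) h'
  · rw [Finset.sum_eq_zero]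
    · symm
      by_contra hne
      apply hβ
      have := hh hne
      rw [Finsupp.weight_apply, Finsupp.sum_fintype] at this
      · simpa using this
      · simp
    · intro γ _
      rw [coeff_monomial, if_neg]
      rintro rfl
      exact hβ γ.2

lemma form_add (c c' : Expo n d → ℂ) : form (fun α => c α + c' α) = form c + form c' := by
  unfold form
  rw [← Finset.sum_add_distrib]
  refine Finset.sum_congr rfl fun α _ => ?_
  rw [← map_add]

/-- singular forms with prescribed non-special coefficients -/
lemma exists_singular (hd : 2 ≤ d) (j : Fin n) (p : Fin n → ℂ) (hp : p j ≠ 0)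
    (c : Expo n d → ℂ) : ∃ c' : Expo n d → ℂ, (∀ α : Expo n d, α.1 j < d - 1 → c α = c' α) ∧
      ∀ i, eval p (pderiv i (form c')) = 0 := by
  set v : Fin n → ℂ := fun i => eval p (pderiv i (form c)) with hv
  set b0 : Fin n → ℂ := fun i => -v i / p j ^ (d - 1) with hb0
  set S : ℂ := ∑ l ∈ Finset.univ.erase j, b0 l * p l with hS
  set bj : ℂ := (-v j - ((d - 1 : ℕ) : ℂ) * p j ^ (d - 2) * S) / ((d : ℂ) * p j ^ (d - 1)) with hbj
  set b : Fin n → ℂ := fun i => if i = j then bj else b0 i with hb
  set L : MvPolynomial (Fin n) ℂ := ∑ l, C (b l) * X l with hL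
  set h : MvPolynomial (Fin n) ℂ := X j ^ (d - 1) * L with hh
  have hLh : L.IsHomogeneous 1 := by
    refine IsHomogeneous.sum _ _ _ fun l _ => ?_
    exact (isHomogeneous_X ℂ l).C_mul _
  have hhh : h.IsHomogeneous d := by
    have := ((isHomogeneous_X ℂ j).pow (d - 1)).mul hLh
    rw [one_mul] at this
    have e : d - 1 + 1 = d := by omega
    rwa [e] at this
  have hLp : eval p L = S + bj * p j := by
    rw [hL, map_sum]
    simp only [map_mul, eval_C, eval_X]
    rw [← Finset.sum_erase_add _ _ (Finset.mem_univ j)]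
    congr 1
    · refine Finset.sum_congr rfl fun l hl => ?_
      rw [hb]
      simp only [if_neg (Finset.ne_of_mem_erase hl)]
    · simp [hb]
  have hder : ∀ i, eval p (pderiv i h) = p j ^ (d - 1) * b i
      + (if i = j then ((d - 1 : ℕ) : ℂ) * p j ^ (d - 2) * (S + bj * p j) else 0) := by
    intro i
    have h1 : pderiv i L = C (b i) := by
      rw [hL, map_sum, Finset.sum_eq_single i]
      · rw [pderiv_C_mul, pderiv_X_self, mul_one]
      · intro l _ hl
        rw [pderiv_C_mul, pderiv_X_of_ne hl, mul_zero]
      · intro h'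
        exact absurd (Finset.mem_univ _) h'
    rw [hh, pderiv_mul, h1, pderiv_pow]
    simp only [map_add, map_mul, map_pow, eval_X, eval_C, hLp, map_natCast]
    have e : d - 1 - 1 = d - 2 := by omega
    rw [e]
    split_ifs with hij
    · subst hij
      rw [pderiv_X_self, map_one]
      ring
    · rw [pderiv_X_of_ne (Ne.symm hij), map_zero]
      ring
  refine ⟨fun α => c α + coeff α.1 h, ?_, ?_⟩
  · intro α hα
    have h1 : coeff α.1 h = 0 := by
      rw [hh, X_pow_eq_monomial, coeff_monomial_mul', if_neg]
      intro hle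
      have := hle j
      simp at this
      omega
    change c α = c α + coeff α.1 h
    rw [h1, add_zero]
  · intro i
    rw [form_add, form_of_coeff hhh, map_add, map_add, hder i]
    have hpd : p j ^ (d - 1) ≠ 0 := pow_ne_zero _ hp
    by_cases hij : i = j
    · subst hij
      rw [if_pos rfl]
      have e1 : eval p (pderiv i (form c)) = v i := rfl
      rw [e1]
      have e2 : b i = bj := by simp [hb]
      have e3 : p i ^ (d - 1) = p i ^ (d - 2) * p i := by
        rw [← pow_succ]; congr 1; omega
      have hd0 : (d : ℂ) ≠ 0 := by exact_mod_cast (by omega : d ≠ 0)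
      have e4 : (d : ℂ) * p i ^ (d - 1) * bj = -v i - ((d - 1 : ℕ) : ℂ) * p i ^ (d - 2) * S := by
        rw [hbj]
        field_simp
      have e5 : ((d - 1 : ℕ) : ℂ) = (d : ℂ) - 1 := by
        rw [Nat.cast_sub (by omega)]; simp
      rw [e2]
      rw [e5] at e4 ⊢
      rw [e3] at e4 ⊢
      linear_combination e4
    · rw [if_neg hij, add_zero]
      have e1 : eval p (pderiv i (form c)) = v i := rfl
      have e2 : b i = b0 i := by simp [hb, hij]
      rw [e1, e2, hb0]
      field_simp
      ring

/-- `a` vanishes at all degenerate forms -/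
def Van (a : A n d) : Prop :=
  ∀ c : Expo n d → ℂ, (∃ p : Fin n → ℂ, p ≠ 0 ∧ ∀ i, eval p (pderiv i (form c)) = 0) →
    eval c a = 0

lemma eq_zero_of_ev {Q : R n d} (h : ∀ p c, ev p c Q = 0) : Q = 0 := by
  have h1 : ∀ c, map (eval c) Q = 0 := by
    intro c
    apply MvPolynomial.funext
    intro p
    rw [map_zero]
    exact h p c
  ext1 β
  rw [coeff_zero]
  apply MvPolynomial.funext
  intro c
  have h2 := congrArg (coeff β) (h1 c)
  rw [coeff_map, coeff_zero] at h2
  rw [h2, map_zero]

theorem saturation (hd : 2 ≤ d) {a : A n d} (ha : Van a) (j : Fin n) :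
    ∃ N : ℕ, C a * X j ^ N ∈ I n d := by
  obtain ⟨N, Q, hQ, hQI⟩ := reduce hd j a
  have h1 : X j * Q = 0 := by
    apply eq_zero_of_ev
    intro p c
    rw [map_mul, ev_X]
    by_cases hp : p j = 0
    · rw [hp, zero_mul]
    · obtain ⟨c', hc', hs⟩ := exists_singular hd j p hp c
      have h2 := ev_mem_I hs hQI
      rw [map_sub, map_mul, ev_C, ha c' ⟨p, fun h0 => hp (by rw [h0]; rfl), hs⟩, zero_mul,
        zero_sub, neg_eq_zero] at h2
      rw [hQ p c c' hc', h2, mul_zero]
  have h2 : Q = 0 := by
    rcases mul_eq_zero.1 h1 with h | h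
    · exact absurd h (X_ne_zero j)
    · exact h
  rw [h2, sub_zero] at hQI
  exact ⟨N, hQI⟩

end Pool.Agent.X101.Generic
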