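import Mathlib
import Pool.Agent.X101.Satur

/-! Multiples of the socle degree by polynomials vanishing on the degenerate forms. -/

namespace Pool.Agent.X101.Generic

open MvPolynomial Pool.Agent.X101.Colon Matrix

variable {n d : ℕ}

/-- the Hessian matrix of the generic form -/
noncomputable def hessM (n d : ℕ) : Matrix (Fin n) (Fin n) (R n d) :=
  Matrix.of fun i j => pderiv j (pderiv i (F n d))

/-- the Hessian -/
noncomputable def Hs (n d : ℕ) : R n d := (hessM n d).det

lemma mulVec_hess : hessM n d *ᵥ (X : Fin n → R n d) = yy n d := by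
  funext i
  have h := ((F_homog (n := n) (d := d)).pderiv (i := i)).sum_X_mul_pderiv
  rw [Matrix.mulVec, dotProduct]
  unfold yy hessM
  rw [← nsmul_eq_mul, ← h]
  refine Finset.sum_congr rfl fun j _ => ?_
  rw [Matrix.of_apply]
  ring

lemma KT_eq {T : Finset (Fin n)} {r : Fin n} (_ : r ∉ T) :
    KT (X : Fin n → R n d) (yy n d) T r = KK (Finset.univ \ insert r T) T := by
  unfold KT KK
  congr 1
  ext v
  simp only [Set.mem_image, Set.mem_union, Finset.mem_coe, Finset.mem_sdiff, Finset.mem_univ,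
    true_and, Finset.mem_insert, not_or, ne_eq]
  constructor
  · rintro ⟨i, hi, rfl⟩
    by_cases hiT : i ∈ T
    · right
      exact ⟨i, hiT, by simp [yT, hiT]⟩
    · left
      exact ⟨i, ⟨hi, hiT⟩, by simp [yT, hiT]⟩
  · rintro (⟨i, ⟨hi, hiT⟩, rfl⟩ | ⟨i, hiT, rfl⟩)
    · exact ⟨i, hi, by simp [yT, hiT]⟩
    · refine ⟨i, ?_, by simp [yT, hiT]⟩
      rintro rfl
      contradiction

lemma nzd1 (hd : 2 ≤ d) (T : Finset (Fin n)) (r : Fin n) (hr : r ∉ T) :
    NzdMod (KT (X : Fin n → R n d) (yy n d) T r) (X r) := by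
  rw [KT_eq hr]
  refine nzd_X hd T _ r ?_ ?_ hr
  · rw [Finset.disjoint_left]
    intro i hi hiT
    rw [Finset.mem_sdiff, Finset.mem_insert, not_or] at hi
    exact hi.2.2 hiT
  · rw [Finset.mem_sdiff, Finset.mem_insert, not_or]
    intro h
    exact h.2.1 rfl

lemma nzd2 (hd : 2 ≤ d) (T : Finset (Fin n)) (r : Fin n) (hr : r ∉ T) :
    NzdMod (KT (X : Fin n → R n d) (yy n d) T r) (yy n d r) := by
  have h := nzd1 hd T r hr
  rw [KT_eq hr] at h ⊢
  exact nzd_yy hd hr h

lemma span_yy (hd : 2 ≤ d) : Ideal.span (Set.range (yy n d)) = I n d := by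
  apply le_antisymm
  · rw [Ideal.span_le]
    rintro _ ⟨i, rfl⟩
    exact Ideal.mul_mem_left _ _ (pderiv_mem i)
  · unfold I
    rw [Ideal.span_le]
    rintro _ ⟨i, rfl⟩
    have h1 := (Ideal.span (Set.range (yy n d))).mul_mem_left
      (algebraMap ℚ (R n d) (((d - 1 : ℕ) : ℚ)⁻¹)) (Ideal.subset_span ⟨i, rfl⟩)
    unfold yy at h1
    rw [← mul_assoc, ← map_natCast (algebraMap ℚ (R n d)), ← map_mul, inv_mul_cancel₀
      (by exact_mod_cast (by omega : d - 1 ≠ 0)), map_one, one_mul] at h1
    exact h1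

lemma MT_univ (a : Matrix (Fin n) (Fin n) (R n d)) : MT a Finset.univ = a := by
  funext i
  simp [MT]

lemma yT_univ (x y : Fin n → R n d) : yT x y Finset.univ = y := by
  funext i
  simp [yT]

lemma colonH (hd : 2 ≤ d) (w : R n d) (hw : ∀ j, w * X j ∈ I n d) :
    ∃ s, w - s * Hs n d ∈ I n d := by
  have h := colon mulVec_hess (nzd1 hd) (nzd2 hd) Finset.univ w
  rw [MT_univ, yT_univ, span_yy hd] at h
  exact h hw

lemma det_colonH (hd : 2 ≤ d) (q : R n d) (hq : q * Hs n d ∈ I n d) :
    q ∈ Ideal.span (Set.range (X : Fin n → R n d)) := by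
  have h := det_colon mulVec_hess (nzd2 hd) Finset.univ q
  rw [MT_univ, yT_univ, span_yy hd] at h
  exact h hq

lemma H_mul_X (hd : 2 ≤ d) (j : Fin n) : X j * Hs n d ∈ I n d := by
  have h1 : (adjugate (hessM n d) *ᵥ (yy n d)) j = Hs n d * X j := by
    rw [← mulVec_hess, Matrix.mulVec_mulVec, Matrix.adjugate_mul, Matrix.smul_mulVec,
      Matrix.one_mulVec]
    simp [Hs]
  rw [mul_comm, ← h1, Matrix.mulVec, dotProduct]
  refine Ideal.sum_mem _ fun i _ => Ideal.mul_mem_left _ _ ?_
  rw [← span_yy hd]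
  exact Ideal.subset_span ⟨i, rfl⟩

lemma mem_span_X_mul_H (hd : 2 ≤ d) {s : R n d}
    (hs : s ∈ Ideal.span (Set.range (X : Fin n → R n d))) : s * Hs n d ∈ I n d := by
  induction hs using Submodule.span_induction with
  | mem x hx =>
    obtain ⟨j, rfl⟩ := hx
    exact H_mul_X hd j
  | zero => rw [zero_mul]; exact Ideal.zero_mem _
  | add x y _ _ hx hy => rw [add_mul]; exact Ideal.add_mem _ hx hy
  | smul a x _ hx => rw [smul_eq_mul, mul_assoc]; exact Ideal.mul_mem_left _ _ hx

lemma sub_C_mem (s : R n d) :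
    s - C (coeff 0 s) ∈ Ideal.span (Set.range (X : Fin n → R n d)) := by
  have h : Set.range (X : Fin n → R n d) = X '' (Set.univ : Set (Fin n)) := Set.image_univ.symm
  rw [h, mem_ideal_span_X_image]
  intro m hm
  by_contra hcon
  push Not at hcon
  have hm0 : m = 0 := by
    ext i
    exact hcon i (Set.mem_univ i)
  rw [hm0, mem_support_iff, coeff_sub, coeff_C, if_pos rfl, sub_self] at hm
  exact hm rfl

/-- elements killed by the variables modulo `I` are congruent to `A`-multiples of the Hessian -/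
lemma colonA (hd : 2 ≤ d) (w : R n d) (hw : ∀ j, w * X j ∈ I n d) :
    ∃ g : A n d, w - C g * Hs n d ∈ I n d := by
  obtain ⟨s, hs⟩ := colonH hd w hw
  refine ⟨coeff 0 s, ?_⟩
  have h1 := mem_span_X_mul_H hd (sub_C_mem s)
  have h2 := Ideal.add_mem _ hs h1
  have e : w - s * Hs n d + (s - C (coeff 0 s)) * Hs n d = w - C (coeff 0 s) * Hs n d := by ring
  rwa [e] at h2

section graded

attribute [local instance] MvPolynomial.gradedAlgebra

lemma I_homog : (I n d).IsHomogeneous (homogeneousSubmodule (Fin n) (A n d)) := by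
  unfold I
  apply Ideal.homogeneous_span
  rintro _ ⟨i, rfl⟩
  exact ⟨d - 1, (F_homog (n := n) (d := d)).pderiv⟩

lemma comp_mem {w : R n d} (hw : w ∈ I n d) (k : ℕ) : homogeneousComponent k w ∈ I n d :=
  homogeneousComponent_mem_of_mem I_homog hw k

end graded

lemma Hs_homog : (Hs n d).IsHomogeneous (n * (d - 2)) := by
  unfold Hs
  rw [Matrix.det_apply]
  refine IsHomogeneous.sum _ _ _ fun σ _ => ?_
  have h1 : (∏ i, hessM n d (σ i) i).IsHomogeneous (∑ _i : Fin n, (d - 2)) := by
    refine IsHomogeneous.prod _ _ _ fun i _ => ?_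
    unfold hessM
    rw [Matrix.of_apply]
    have h2 := ((F_homog (n := n) (d := d)).pderiv (i := σ i)).pderiv (i := i)
    have e : d - 1 - 1 = d - 2 := by omega
    rwa [e] at h2
  rw [Finset.sum_const, Finset.card_univ, Fintype.card_fin, smul_eq_mul] at h1
  rcases Int.units_eq_one_or (Equiv.Perm.sign σ) with h | h <;> rw [h]
  · simpa using h1
  · simpa using h1.neg

/-- exponent vectors of large degree -/
lemma large_degree (hd : 2 ≤ d) {a : A n d} (ha : Van a) :
    ∃ N : ℕ, ∀ β : Fin n →₀ ℕ, N ≤ ∑ i, β i → monomial β a ∈ I n d := by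
  choose N hN using fun j : Fin n => saturation hd ha j
  refine ⟨∑ j, N j + 1, fun β hβ => ?_⟩
  obtain ⟨j, hj⟩ : ∃ j, N j ≤ β j := by
    by_contra hcon
    push Not at hcon
    have h1 : ∑ j, β j ≤ ∑ j, N j := Finset.sum_le_sum fun j _ => (hcon j).le
    omega
  have h2 : monomial β a = C a * X j ^ N j * monomial (β - Finsupp.single j (N j)) 1 := by
    rw [X_pow_eq_monomial, mul_assoc, monomial_mul, C_mul_monomial]
    congr 1
    · rw [add_comm, tsub_add_cancel_of_le]
      rw [Finsupp.single_le_iff]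
      exact hj
    · ring
  rw [h2]
  exact Ideal.mul_mem_right _ _ (hN j)

/-- beyond the socle degree -/
lemma beyond (hd : 2 ≤ d) {a : A n d} (ha : Van a) :
    ∀ β : Fin n →₀ ℕ, n * (d - 2) < ∑ i, β i → monomial β a ∈ I n d := by
  obtain ⟨N, hN⟩ := large_degree hd ha
  have h : ∀ m k : ℕ, N ≤ k + m → n * (d - 2) < k → ∀ β : Fin n →₀ ℕ, ∑ i, β i = k →
      monomial β a ∈ I n d := by
    intro m
    induction m with
    | zero =>
      intro k hk _ β hβ
      exact hN β (by omega)
    | succ m ih =>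
      intro k hk hk2 β hβ
      have h1 : ∀ j, monomial β a * X j ∈ I n d := by
        intro j
        have h2 : monomial β a * X j = monomial (β + Finsupp.single j 1) a := by
          rw [X, monomial_mul, mul_one]
        rw [h2]
        refine ih (k + 1) (by omega) (by omega) _ ?_
        simp only [Finsupp.coe_add, Pi.add_apply, Finset.sum_add_distrib, hβ]
        congr 1
        rw [Finset.sum_eq_single j]
        · simp
        · intro i _ hi
          simp [hi]
        · intro hj
          exact absurd (Finset.mem_univ _) hj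
      obtain ⟨g, hg⟩ := colonA hd _ h1
      have h3 := comp_mem hg k
      have h4 : homogeneousComponent k (Hs n d) = 0 := by
        rw [homogeneousComponent_of_mem (n := n * (d - 2))
          (by rw [mem_homogeneousSubmodule]; exact Hs_homog), if_neg (by omega)]
      have h5 : homogeneousComponent k (monomial β a : R n d) = monomial β a := by
        apply homogeneousComponent_eq_self
        refine isHomogeneous_monomial _ ?_
        rw [Finsupp.degree_eq_sum]
        exact hβ
      rw [map_sub, homogeneousComponent_C_mul, h4, h5, mul_zero, sub_zero] at h3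
      exact h3
  intro β hβ
  exact h N _ (by omega) hβ β rfl

/-- **Main upper bound.** -/
theorem socle_degree (hd : 2 ≤ d) {a : A n d} (ha : Van a) (β : Fin n →₀ ℕ)
    (hβ : ∑ i, β i = n * (d - 2)) : ∃ g : A n d, monomial β a - C g * Hs n d ∈ I n d := by
  apply colonA hd
  intro j
  have h2 : monomial β a * X j = monomial (β + Finsupp.single j 1) a := by
    rw [X, monomial_mul, mul_one]
  rw [h2]
  apply beyond hd ha
  simp only [Finsupp.coe_add, Pi.add_apply, Finset.sum_add_distrib, hβ]
  have : ∑ i, (Finsupp.single j 1 : Fin n →₀ ℕ) i = 1 := by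
    rw [Finset.sum_eq_single j]
    · simp
    · intro i _ hi
      simp [hi]
    · intro hj
      exact absurd (Finset.mem_univ _) hj
  omega

/-! ### Specialisation -/

lemma map_mem {w : R n d} (hw : w ∈ I n d) (c : Expo n d → ℂ) : map (eval c) w ∈ jac c := by
  have h1 : I n d ≤ (jac c).comap (map (eval c)) := by
    unfold I
    rw [Ideal.span_le]
    rintro _ ⟨i, rfl⟩
    change map (eval c) (pderiv i (F n d)) ∈ jac c
    rw [← pderiv_map, map_F]
    exact Ideal.subset_span ⟨i, rfl⟩
  exact h1 hw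

lemma map_Hs (c : Expo n d → ℂ) : map (eval c) (Hs n d) = hess c := by
  unfold Hs hess
  rw [RingHom.map_det, ← Matrix.det_transpose]
  congr 1
  ext1 i j
  simp only [RingHom.mapMatrix_apply, Matrix.transpose_apply, Matrix.map_apply, hessM,
    Matrix.of_apply]
  rw [← pderiv_map, ← pderiv_map, map_F]

theorem socle_spec (hd : 2 ≤ d) {a : A n d} (ha : Van a) (β : Fin n →₀ ℕ)
    (hβ : ∑ i, β i = n * (d - 2)) : ∃ g : A n d, ∀ c : Expo n d → ℂ,
      monomial β (eval c a) - C (eval c g) * hess c ∈ jac c := by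
  obtain ⟨g, hg⟩ := socle_degree hd ha β hβ
  refine ⟨g, fun c => ?_⟩
  have h := map_mem hg c
  rwa [map_sub, map_mul, map_C, map_Hs, map_monomial] at h

end Pool.Agent.X101.Generic
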