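import Mathlib
import Pool.Agent.X101.Upper

/-! The Hessian is not in the Jacobian ideal of a nondegenerate form. -/

namespace Pool.Agent.X101.Generic

open MvPolynomial Pool.Agent.X101.Colon

variable {n d : ℕ}

lemma sum_of_homog {S : Type*} [CommSemiring S] {e : ℕ} {h : MvPolynomial (Fin n) S}
    (hh : h.IsHomogeneous e) : ∑ γ : Expo n e, monomial γ.1 (coeff γ.1 h) = h := by
  ext β
  rw [coeff_sum]
  by_cases hβ : ∑ i, β i = e
  · rw [Finset.sum_eq_single (⟨β, hβ⟩ : Expo n e)]
    · simp
    · intro γ _ hγ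
      rw [coeff_monomial, if_neg]
      intro h'
      exact hγ (Subtype.ext h')
    · intro h'
      exact absurd (Finset.mem_univ _) h'
  · rw [Finset.sum_eq_zero]
    · symm
      apply hh.coeff_eq_zero
      rw [Finsupp.degree_eq_sum]
      exact hβ
    · intro γ _
      rw [coeff_monomial, if_neg]
      rintro rfl
      exact hβ γ.2

lemma coeff_zero_of_mem_span_X {S : Type*} [CommSemiring S] {w : MvPolynomial (Fin n) S}
    (hw : w ∈ Ideal.span (Set.range (X : Fin n → MvPolynomial (Fin n) S))) : coeff 0 w = 0 := by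
  have h : Set.range (X : Fin n → MvPolynomial (Fin n) S) = X '' (Set.univ : Set (Fin n)) :=
    Set.image_univ.symm
  rw [h, mem_ideal_span_X_image] at hw
  by_contra hne
  obtain ⟨i, _, hi⟩ := hw 0 (mem_support_iff.2 hne)
  exact hi rfl

/-- lifting of a monomial in the Jacobian ideal -/
lemma lift_monomial (c : Expo n d → ℂ) (e : ℕ) (β : Fin n →₀ ℕ) (hβ : ∑ i, β i = e)
    (h : monomial β (1 : ℂ) ∈ jac c) :
    ∃ v : R n d, v.IsHomogeneous e ∧ monomial β 1 - v ∈ I n d ∧ ∀ γ, eval c (coeff γ v) = 0 := by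
  obtain ⟨f, hf⟩ := Ideal.mem_span_range_iff_exists_fun.1 h
  set w : R n d := ∑ i, map (C : ℂ →+* A n d) (f i) * pderiv i (F n d) with hw
  have hwI : w ∈ I n d := Ideal.sum_mem _ fun i _ => Ideal.mul_mem_left _ _ (pderiv_mem i)
  have hmw : map (eval c) w = monomial β 1 := by
    rw [hw, map_sum, ← hf]
    refine Finset.sum_congr rfl fun i _ => ?_
    rw [map_mul, ← pderiv_map, map_F, map_map]
    congr 1
    have : (eval c).comp (C : ℂ →+* A n d) = RingHom.id ℂ := by
      ext r
      simp
    rw [this, map_id]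
  have hmono : homogeneousComponent e (monomial β 1 : R n d) = monomial β 1 := by
    apply homogeneousComponent_eq_self
    refine isHomogeneous_monomial _ ?_
    rw [Finsupp.degree_eq_sum]
    exact hβ
  refine ⟨homogeneousComponent e (monomial β 1 - w), homogeneousComponent_isHomogeneous _ _, ?_, ?_⟩
  · rw [map_sub, hmono, sub_sub_cancel]
    exact comp_mem hwI e
  · intro γ
    rw [coeff_homogeneousComponent]
    split_ifs
    · have h1 := congrArg (coeff γ) hmw
      rw [coeff_map] at h1
      rw [coeff_sub, map_sub, h1, coeff_monomial, coeff_monomial]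
      split_ifs <;> simp
    · rw [map_zero]

theorem hess_notMem (hd : 2 ≤ d) {c : Expo n d → ℂ} {a : A n d} (ha : Van a)
    (hc : eval c a ≠ 0) : hess c ∉ jac c := by
  intro hH
  set δ := n * (d - 2) with hδ
  set m : Ideal (A n d) := RingHom.ker (eval c) with hm
  -- all monomials of degree `δ` are in the Jacobian ideal
  have hmon : ∀ β : Fin n →₀ ℕ, ∑ i, β i = δ → monomial β (1 : ℂ) ∈ jac c := by
    intro β hβ
    obtain ⟨g, hg⟩ := socle_spec hd ha β hβ
    have h1 := (jac c).add_mem (hg c) ((jac c).mul_mem_left (C (eval c g)) hH)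
    rw [sub_add_cancel] at h1
    have h2 := (jac c).mul_mem_left (C (eval c a)⁻¹) h1
    rwa [C_mul_monomial, inv_mul_cancel₀ hc] at h2
  let N : Submodule (A n d) (R n d ⧸ I n d) := Submodule.span (A n d)
    (Set.range fun γ : Expo n δ => Ideal.Quotient.mk (I n d) (monomial γ.1 1))
  have hsm : ∀ (r : A n d) (γ : Fin n →₀ ℕ),
      r • Ideal.Quotient.mk (I n d) (monomial γ 1) = Ideal.Quotient.mk (I n d) (monomial γ r) := by
    intro r γ
    have h1 : r • Ideal.Quotient.mk (I n d) (monomial γ 1)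
        = Ideal.Quotient.mk (I n d) (r • monomial γ 1) := rfl
    rw [h1, smul_monomial, smul_eq_mul, mul_one]
  have hNfg : N.FG := Submodule.fg_span (Set.finite_range _)
  have hNle : N ≤ m • N := by
    rw [Submodule.span_le]
    rintro _ ⟨β, rfl⟩
    obtain ⟨v, hvh, hvI, hv0⟩ := lift_monomial c δ β.1 β.2 (hmon β.1 β.2)
    have h1 : Ideal.Quotient.mk (I n d) (monomial β.1 1) = Ideal.Quotient.mk (I n d) v :=
      Ideal.Quotient.eq.2 hvI
    change Ideal.Quotient.mk (I n d) (monomial β.1 1) ∈ m • N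
    rw [h1, ← sum_of_homog hvh, map_sum]
    refine Submodule.sum_mem _ fun γ _ => ?_
    rw [← hsm]
    refine Submodule.smul_mem_smul ?_ (Submodule.subset_span ⟨γ, rfl⟩)
    exact hv0 γ.1
  obtain ⟨r, hr1, hr⟩ :=
    Submodule.exists_sub_one_mem_and_smul_eq_zero_of_fg_of_le_smul m N hNfg hNle
  have hrI : C r * Hs n d ∈ I n d := by
    rw [← sum_of_homog (Hs_homog (n := n) (d := d)), Finset.mul_sum]
    refine Ideal.sum_mem _ fun γ _ => ?_
    have h1 := hr _ (Submodule.subset_span ⟨γ, rfl⟩)
    rw [hsm, Ideal.Quotient.eq_zero_iff_mem] at h1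
    have h2 : C r * monomial γ.1 (coeff γ.1 (Hs n d))
        = C (coeff γ.1 (Hs n d)) * (monomial γ.1 r : R n d) := by
      rw [C_mul_monomial, C_mul_monomial, mul_comm r]
    rw [h2]
    exact Ideal.mul_mem_left _ _ h1
  have h3 := coeff_zero_of_mem_span_X (det_colonH hd _ hrI)
  rw [coeff_C, if_pos rfl] at h3
  rw [h3, zero_sub, hm, RingHom.mem_ker, map_neg, map_one] at hr1
  norm_num at hr1

end Pool.Agent.X101.Generic
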