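import Mathlib
import Pool.Agent.X101.Socle

/-! A nondegenerate form for which no monomial of the socle degree lies in the Jacobian ideal. -/

namespace Pool.Agent.X101.Generic

open MvPolynomial

variable {n d : ℕ}

/-- `L_k = z_k - (z_1 + ... + z_n) / (n + 1)` -/
noncomputable def LL (n : ℕ) (k : Fin n) : MvPolynomial (Fin n) ℂ :=
  X k - C ((n : ℂ) + 1)⁻¹ * ∑ i, X i

/-- `f = ∑ L_k ^ d` -/
noncomputable def ff (n d : ℕ) : MvPolynomial (Fin n) ℂ := ∑ k, LL n k ^ d

/-- its coefficient vector -/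
noncomputable def cc (n d : ℕ) : Expo n d → ℂ := fun α => coeff α.1 (ff n d)

lemma LL_homog (k : Fin n) : (LL n k).IsHomogeneous 1 := by
  unfold LL
  refine (isHomogeneous_X ℂ k).sub ?_
  refine IsHomogeneous.C_mul ?_ _
  exact IsHomogeneous.sum _ _ _ fun i _ => isHomogeneous_X ℂ i

lemma ff_homog : (ff n d).IsHomogeneous d := by
  unfold ff
  refine IsHomogeneous.sum _ _ _ fun k _ => ?_
  have := (LL_homog (n := n) k).pow d
  rwa [one_mul] at this

lemma form_cc : form (cc n d) = ff n d := form_of_coeff ff_homog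

lemma pderiv_LL (i k : Fin n) : pderiv i (LL n k)
    = C ((if k = i then 1 else 0) - ((n : ℂ) + 1)⁻¹) := by
  unfold LL
  rw [map_sub, pderiv_C_mul, map_sum]
  have h1 : ∑ x : Fin n, pderiv i (X x : MvPolynomial (Fin n) ℂ) = 1 := by
    rw [Finset.sum_eq_single i]
    · exact pderiv_X_self i
    · intro x _ hx
      exact pderiv_X_of_ne hx
    · intro h
      exact absurd (Finset.mem_univ _) h
  rw [h1, mul_one, C_sub]
  congr 1
  split_ifs with h
  · rw [h, pderiv_X_self, C_1]
  · rw [pderiv_X_of_ne h, C_0]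

lemma pderiv_ff (i : Fin n) : pderiv i (ff n d)
    = ∑ k, C ((d : ℂ) * ((if k = i then 1 else 0) - ((n : ℂ) + 1)⁻¹)) * LL n k ^ (d - 1) := by
  unfold ff
  rw [map_sum]
  refine Finset.sum_congr rfl fun k _ => ?_
  rw [pderiv_pow, pderiv_LL, C_mul]
  have : (C (d : ℂ) : MvPolynomial (Fin n) ℂ) = ((d : ℕ) : MvPolynomial (Fin n) ℂ) := by
    rw [map_natCast]
  rw [this]
  ring

lemma nondeg_cc (hd : 2 ≤ d) (p : Fin n → ℂ)
    (hp : ∀ i, eval p (pderiv i (form (cc n d))) = 0) : p = 0 := by
  have hn1 : (n : ℂ) + 1 ≠ 0 := by exact_mod_cast Nat.succ_ne_zero n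
  set a : Fin n → ℂ := fun k => (d : ℂ) * eval p (LL n k) ^ (d - 1) with ha
  -- a general elimination step
  have hel : ∀ b : Fin n → ℂ, (∀ i, b i - ((n : ℂ) + 1)⁻¹ * ∑ k, b k = 0) → ∀ i, b i = 0 := by
    intro b hb
    have h1 : ∑ k, b k = 0 := by
      have h2 : ∑ i, (b i - ((n : ℂ) + 1)⁻¹ * ∑ k, b k) = 0 := Finset.sum_eq_zero fun i _ => hb i
      rw [Finset.sum_sub_distrib, Finset.sum_const, Finset.card_univ, Fintype.card_fin,
        nsmul_eq_mul] at h2
      have h3 : (∑ k, b k) * ((n : ℂ) + 1)⁻¹ = 0 := by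
        have h4 : ∑ k, b k - (n : ℂ) * (((n : ℂ) + 1)⁻¹ * ∑ k, b k)
            = (∑ k, b k) * ((n : ℂ) + 1)⁻¹ := by
          field_simp
          ring
        rw [← h4]; exact h2
      rcases mul_eq_zero.1 h3 with h | h
      · exact h
      · exact absurd h (inv_ne_zero hn1)
    intro i
    have h2 := hb i
    rw [h1, mul_zero, sub_zero] at h2
    exact h2
  have h1 : ∀ i, a i = 0 := by
    apply hel
    intro i
    have h2 := hp i
    rw [form_cc, pderiv_ff, map_sum] at h2
    simp only [map_mul, map_pow, eval_C] at h2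
    rw [← h2, Finset.mul_sum]
    have h3 : a i = ∑ k, (if k = i then a k else 0) := by
      rw [Finset.sum_ite_eq' Finset.univ i a, if_pos (Finset.mem_univ i)]
    rw [h3, ← Finset.sum_sub_distrib]
    refine Finset.sum_congr rfl fun k _ => ?_
    simp only [ha]
    split_ifs <;> ring
  have hd0 : (d : ℂ) ≠ 0 := by exact_mod_cast (by omega : d ≠ 0)
  have h2 : ∀ i, p i - ((n : ℂ) + 1)⁻¹ * ∑ k, p k = 0 := by
    intro i
    have h3 := h1 i
    simp only [ha] at h3
    rcases mul_eq_zero.1 h3 with h | h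
    · exact absurd h hd0
    · have h4 := pow_eq_zero_iff (by omega : d - 1 ≠ 0) |>.1 h
      simpa [LL] using h4
  funext i
  exact hel p h2 i

/-- positivity of the coefficients of products of positive linear forms -/
lemma coeff_pos (L : Fin n → MvPolynomial (Fin n) ℕ)
    (hL : ∀ j k, 0 < coeff (Finsupp.single k 1) (L j)) (β : Fin n →₀ ℕ) :
    ∀ γ : Fin n →₀ ℕ, ∑ i, γ i = ∑ i, β i → 0 < coeff γ (∏ j, L j ^ β j) := by
  -- induct on the total degree
  have key : ∀ (N : ℕ) (β γ : Fin n →₀ ℕ), ∑ i, β i = N → ∑ i, γ i = N →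
      0 < coeff γ (∏ j, L j ^ β j) := by
    intro N
    induction N with
    | zero =>
      intro β γ hβ hγ
      have hβ0 : β = 0 := by
        ext i
        exact (Finset.sum_eq_zero_iff.1 hβ) i (Finset.mem_univ i)
      have hγ0 : γ = 0 := by
        ext i
        exact (Finset.sum_eq_zero_iff.1 hγ) i (Finset.mem_univ i)
      subst hβ0 hγ0
      simp
    | succ N ih =>
      intro β γ hβ hγ
      obtain ⟨j, hj⟩ : ∃ j, β j ≠ 0 := by
        by_contra hcon
        push Not at hcon
        rw [Finset.sum_eq_zero fun i _ => hcon i] at hβ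
        omega
      obtain ⟨k, hk⟩ : ∃ k, γ k ≠ 0 := by
        by_contra hcon
        push Not at hcon
        rw [Finset.sum_eq_zero fun i _ => hcon i] at hγ
        omega
      have hsplit : ∀ (β : Fin n →₀ ℕ) (j : Fin n), β j ≠ 0 →
          β = Finsupp.single j 1 + (β - Finsupp.single j 1) := by
        intro β j hj
        rw [add_comm, tsub_add_cancel_of_le]
        rw [Finsupp.single_le_iff]
        omega
      have hsum : ∀ (β : Fin n →₀ ℕ) (j : Fin n), β j ≠ 0 → ∑ i, β i = N + 1 →
          ∑ i, (β - Finsupp.single j 1 : Fin n →₀ ℕ) i = N := by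
        intro β j hj h
        have h1 : ∑ i, β i
            = ∑ i, (Finsupp.single j 1 + (β - Finsupp.single j 1) : Fin n →₀ ℕ) i := by
          rw [← hsplit β j hj]
        rw [h] at h1
        simp only [Finsupp.coe_add, Pi.add_apply, Finset.sum_add_distrib] at h1
        have h2 : ∑ i, (Finsupp.single j 1 : Fin n →₀ ℕ) i = 1 := by
          rw [Finset.sum_eq_single j]
          · simp
          · intro i _ hi
            simp [hi]
          · intro h
            exact absurd (Finset.mem_univ _) h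
        omega
      have hprod : ∏ i, L i ^ β i
          = L j * ∏ i, L i ^ (β - Finsupp.single j 1 : Fin n →₀ ℕ) i := by
        have h1 : ∀ i, L i ^ β i
            = L i ^ (Finsupp.single j 1 : Fin n →₀ ℕ) i
              * L i ^ (β - Finsupp.single j 1 : Fin n →₀ ℕ) i := by
          intro i
          rw [← pow_add]
          congr 1
          have := DFunLike.congr_fun (hsplit β j hj) i
          simpa using this
        rw [Finset.prod_congr rfl fun i _ => h1 i, Finset.prod_mul_distrib]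
        congr 1
        rw [Finset.prod_eq_single j]
        · simp
        · intro i _ hi
          simp [hi]
        · intro h
          exact absurd (Finset.mem_univ _) h
      rw [hprod, coeff_mul]
      have hmem : ((Finsupp.single k 1 : Fin n →₀ ℕ), γ - Finsupp.single k 1) ∈ Finset.HasAntidiagonal.antidiagonal γ := by
        rw [Finset.HasAntidiagonal.mem_antidiagonal]
        exact (hsplit γ k hk).symm
      have hpos : 0 < coeff (Finsupp.single k 1) (L j)
          * coeff (γ - Finsupp.single k 1) (∏ i, L i ^ (β - Finsupp.single j 1 : Fin n →₀ ℕ) i) :=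
        Nat.mul_pos (hL j k) (ih _ _ (hsum β j hj hβ) (hsum γ k hk hγ))
      exact lt_of_lt_of_le hpos (Finset.single_le_sum
        (f := fun x : (Fin n →₀ ℕ) × (Fin n →₀ ℕ) => coeff x.1 (L j)
          * coeff x.2 (∏ i, L i ^ (β - Finsupp.single j 1 : Fin n →₀ ℕ) i)) (fun _ _ => Nat.zero_le _) hmem)
  intro γ hγ
  exact key _ β γ rfl hγ

/-- the substitution `z_j ↦ z_j + ∑ z_k` -/
noncomputable def phi (n : ℕ) : MvPolynomial (Fin n) ℂ →ₐ[ℂ] MvPolynomial (Fin n) ℂ :=
  aeval fun j => X j + ∑ k, X k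

lemma phi_LL (k : Fin n) : phi n (LL n k) = X k := by
  have hn1 : (n : ℂ) + 1 ≠ 0 := by exact_mod_cast Nat.succ_ne_zero n
  unfold phi LL
  rw [map_sub, map_mul, map_sum, aeval_X, ← algebraMap_eq, AlgHom.commutes]
  simp only [aeval_X]
  rw [Finset.sum_add_distrib, Finset.sum_const, Finset.card_univ, Fintype.card_fin, nsmul_eq_mul]
  have h1 : ((n : ℕ) : MvPolynomial (Fin n) ℂ) = C (n : ℂ) := by rw [map_natCast]
  rw [h1, algebraMap_eq]
  have h2 : (C ((n : ℂ) + 1)⁻¹ : MvPolynomial (Fin n) ℂ) * (∑ x, X x + C (n : ℂ) * ∑ i, X i)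
      = C (((n : ℂ) + 1)⁻¹ * ((n : ℂ) + 1)) * ∑ x, X x := by
    rw [C_mul, C_add, C_1]
    ring
  rw [h2, inv_mul_cancel₀ hn1, C_1, one_mul]
  ring

theorem monomial_notMem (hd : 2 ≤ d) (β : Fin n →₀ ℕ) (hβ : ∑ i, β i = n * (d - 2)) :
    monomial β (1 : ℂ) ∉ jac (cc n d) := by
  intro h
  -- the Jacobian ideal is inside the ideal of the powers of the `L_k`
  have h1 : jac (cc n d) ≤ (Ideal.span
      ((fun s => monomial s (1 : ℂ)) '' Set.range fun k : Fin n => Finsupp.single k (d - 1))).comap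
      (phi n : MvPolynomial (Fin n) ℂ →+* MvPolynomial (Fin n) ℂ) := by
    unfold jac
    rw [Ideal.span_le]
    rintro _ ⟨i, rfl⟩
    change phi n (pderiv i (form (cc n d))) ∈ Ideal.span
      ((fun s => monomial s (1 : ℂ)) '' Set.range fun k : Fin n => Finsupp.single k (d - 1))
    rw [form_cc, pderiv_ff, map_sum]
    refine Ideal.sum_mem _ fun k _ => ?_
    rw [map_mul, map_pow, phi_LL]
    refine Ideal.mul_mem_left _ _ (Ideal.subset_span ⟨Finsupp.single k (d - 1), ⟨k, rfl⟩, ?_⟩)
    rw [X_pow_eq_monomial]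
  have h2 : phi n (monomial β 1) ∈ Ideal.span
      ((fun s => monomial s (1 : ℂ)) '' Set.range fun k : Fin n => Finsupp.single k (d - 1)) :=
    h1 h
  rw [mem_ideal_span_monomial_image] at h2
  -- the positive coefficient
  set L : Fin n → MvPolynomial (Fin n) ℕ := fun j => X j + ∑ k, X k with hL
  have hLpos : ∀ j k, 0 < coeff (Finsupp.single k 1) (L j) := by
    intro j k
    rw [hL]
    simp only [coeff_add, coeff_sum]
    have h3 : coeff (Finsupp.single k 1) (X k : MvPolynomial (Fin n) ℕ)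
        ≤ ∑ x : Fin n, coeff (Finsupp.single k 1) (X x : MvPolynomial (Fin n) ℕ) :=
      Finset.single_le_sum (f := fun x : Fin n =>
        coeff (Finsupp.single k 1) (X x : MvPolynomial (Fin n) ℕ)) (fun _ _ => Nat.zero_le _)
        (Finset.mem_univ k)
    rw [coeff_X, if_pos rfl] at h3
    omega
  set γ : Fin n →₀ ℕ := Finsupp.equivFunOnFinite.symm fun _ => d - 2 with hγ
  have hγsum : ∑ i, γ i = ∑ i, β i := by
    rw [hβ]
    simp [hγ]
  have h3 := coeff_pos L hLpos β γ hγsum
  have h4 : phi n (monomial β 1) = map (Nat.castRingHom ℂ) (∏ j, L j ^ β j) := by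
    unfold phi
    rw [aeval_monomial, map_one, one_mul, Finsupp.prod_fintype _ _ (fun i => pow_zero _), map_prod]
    refine Finset.prod_congr rfl fun j _ => ?_
    rw [map_pow, hL]
    simp
  have h5 : γ ∈ (phi n (monomial β 1)).support := by
    rw [mem_support_iff, h4, coeff_map]
    simp only [eq_natCast, ne_eq, Nat.cast_eq_zero]
    omega
  obtain ⟨s, ⟨k, rfl⟩, hs⟩ := h2 γ h5
  have h6 := hs k
  simp [hγ] at h6
  omega

end Pool.Agent.X101.Generic
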