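import Mathlib

/-! Gagliardo seminorms of mollifications, used for MP_498700_an. -/

open MeasureTheory Filter Set
open scoped Topology ENNReal

namespace Pool.Agent.X101.Gag

/-- the squared Gagliardo seminorm of order `1/2` of a function on the line -/
noncomputable def gagliardo (v : ℝ → ℝ) : ℝ≥0∞ :=
  ∫⁻ x, ∫⁻ y, ‖v x - v y‖ₑ ^ 2 / ‖x - y‖ₑ ^ 2

/-- mollification `u_ε(x) = ∫ η(z) u(x - ε z) dz` -/
noncomputable def moll (η : ℝ → ℝ) (ε : ℝ) (u : ℝ → ℝ) (x : ℝ) : ℝ := ∫ z, η z * u (x - ε * z)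

/-- weighted Cauchy-Schwarz -/
lemma sq_lintegral {α : Type*} [MeasurableSpace α] (μ : Measure α) {a b : α → ℝ≥0∞}
    (ha : AEMeasurable a μ) (hb : AEMeasurable b μ) :
    (∫⁻ z, a z * b z ∂μ) ^ 2 ≤ (∫⁻ z, a z ∂μ) * ∫⁻ z, a z * b z ^ 2 ∂μ := by
  have h := ENNReal.lintegral_mul_le_Lp_mul_Lq μ Real.HolderConjugate.two_two
    (f := fun z => a z ^ (1 / 2 : ℝ)) (g := fun z => a z ^ (1 / 2 : ℝ) * b z)
    (ha.pow_const _) ((ha.pow_const _).mul hb)
  have e1 : ∀ z, (a z ^ (1 / 2 : ℝ)) * (a z ^ (1 / 2 : ℝ) * b z) = a z * b z := by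
    intro z
    rw [← mul_assoc, ← ENNReal.rpow_add_of_nonneg _ _ (by norm_num) (by norm_num)]
    norm_num
  have e2 : ∀ z, (a z ^ (1 / 2 : ℝ)) ^ (2 : ℝ) = a z := by
    intro z
    rw [← ENNReal.rpow_mul]
    norm_num
  have e3 : ∀ z, (a z ^ (1 / 2 : ℝ) * b z) ^ (2 : ℝ) = a z * b z ^ 2 := by
    intro z
    rw [ENNReal.mul_rpow_of_nonneg _ _ (by norm_num), e2, ENNReal.rpow_two]
  simp only [Pi.mul_apply, e1, e2, e3] at h
  calc (∫⁻ z, a z * b z ∂μ) ^ 2 ≤ ((∫⁻ z, a z ∂μ) ^ (1 / 2 : ℝ)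
        * (∫⁻ z, a z * b z ^ 2 ∂μ) ^ (1 / 2 : ℝ)) ^ 2 := pow_le_pow_left' h 2
    _ = _ := by
        rw [mul_pow, ← ENNReal.rpow_natCast, ← ENNReal.rpow_natCast, ← ENNReal.rpow_mul,
          ← ENNReal.rpow_mul]
        norm_num

lemma measurable_quot {v : ℝ → ℝ} (hv : Continuous v) :
    Measurable (Function.uncurry fun x y : ℝ => ‖v x - v y‖ₑ ^ 2 / ‖x - y‖ₑ ^ 2) := by
  unfold Function.uncurry
  have h1 : Measurable fun p : ℝ × ℝ => ‖v p.1 - v p.2‖ₑ ^ 2 :=
    ((hv.comp continuous_fst).sub (hv.comp continuous_snd)).measurable.enorm.pow_const 2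
  have h2 : Measurable fun p : ℝ × ℝ => ‖p.1 - p.2‖ₑ ^ 2 :=
    (continuous_fst.sub continuous_snd).measurable.enorm.pow_const 2
  exact h1.div h2

/-- translation invariance -/
lemma gagliardo_translate (v : ℝ → ℝ) (t : ℝ) :
    gagliardo (fun x => v (x - t)) = gagliardo v := by
  unfold gagliardo
  have h1 : ∀ x, ∫⁻ y, ‖v (x - t) - v (y - t)‖ₑ ^ 2 / ‖x - y‖ₑ ^ 2
      = ∫⁻ y, ‖v (x - t) - v y‖ₑ ^ 2 / ‖(x - t) - y‖ₑ ^ 2 := by
    intro x
    rw [← lintegral_sub_right_eq_self (fun y => ‖v (x - t) - v y‖ₑ ^ 2 / ‖(x - t) - y‖ₑ ^ 2) t]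
    refine lintegral_congr fun y => ?_
    congr 3
    ring
  simp_rw [h1]
  exact lintegral_sub_right_eq_self
    (fun x => ∫⁻ y, ‖v x - v y‖ₑ ^ 2 / ‖x - y‖ₑ ^ 2) t

lemma lintegral_mul_left (f : ℝ → ℝ≥0∞) {l : ℝ} (hl : 0 < l) :
    ∫⁻ x, f (l * x) = ENNReal.ofReal l⁻¹ * ∫⁻ x, f x := by
  have h1 := Real.map_volume_mul_left (a := l) hl.ne'
  have h2 : ∫⁻ x, f x ∂(Measure.map (fun x => l * x) volume) = ∫⁻ x, f (l * x) :=
    lintegral_map_equiv f (Homeomorph.mulLeft₀ l hl.ne').toMeasurableEquiv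
  rw [← h2, h1, lintegral_smul_measure, abs_of_pos (inv_pos.2 hl), smul_eq_mul]

/-- scale invariance -/
lemma gagliardo_scale (v : ℝ → ℝ) {l : ℝ} (hl : 0 < l) :
    gagliardo (fun x => v (l * x)) = gagliardo v := by
  unfold gagliardo
  have hl0 : ENNReal.ofReal l ≠ 0 := by
    rw [ne_eq, ENNReal.ofReal_eq_zero]; linarith
  have h1 : ∀ x, ∫⁻ y, ‖v (l * x) - v (l * y)‖ₑ ^ 2 / ‖x - y‖ₑ ^ 2
      = ENNReal.ofReal l * ∫⁻ y, ‖v (l * x) - v y‖ₑ ^ 2 / ‖l * x - y‖ₑ ^ 2 := by
    intro x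
    have h2 := lintegral_mul_left
      (fun y => ‖v (l * x) - v y‖ₑ ^ 2 / ‖l * x - y‖ₑ ^ 2) hl
    have h3 : ∀ y : ℝ, ‖v (l * x) - v (l * y)‖ₑ ^ 2 / ‖x - y‖ₑ ^ 2
        = ENNReal.ofReal l ^ 2 * (‖v (l * x) - v (l * y)‖ₑ ^ 2 / ‖l * x - l * y‖ₑ ^ 2) := by
      intro y
      have h4 : ‖l * x - l * y‖ₑ = ENNReal.ofReal l * ‖x - y‖ₑ := by
        rw [← mul_sub, enorm_mul, Real.enorm_of_nonneg hl.le]
      rw [h4, mul_pow, ← mul_div_assoc, ENNReal.mul_div_mul_left _ _ (pow_ne_zero 2 hl0)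
        (ENNReal.pow_ne_top ENNReal.ofReal_ne_top)]
    simp_rw [h3]
    rw [lintegral_const_mul' _ _ (ENNReal.pow_ne_top ENNReal.ofReal_ne_top), h2, ← mul_assoc]
    congr 1
    rw [sq, mul_assoc, ← ENNReal.ofReal_mul hl.le, mul_inv_cancel₀ hl.ne', ENNReal.ofReal_one,
      mul_one]
  simp_rw [h1]
  rw [lintegral_const_mul' _ _ ENNReal.ofReal_ne_top,
    lintegral_mul_left (fun x => ∫⁻ y, ‖v x - v y‖ₑ ^ 2 / ‖x - y‖ₑ ^ 2) hl, ← mul_assoc,
    ← ENNReal.ofReal_mul hl.le, mul_inv_cancel₀ hl.ne', ENNReal.ofReal_one, one_mul]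

lemma gagliardo_const_mul (v : ℝ → ℝ) (a : ℝ) :
    gagliardo (fun x => a * v x) = ‖a‖ₑ ^ 2 * gagliardo v := by
  unfold gagliardo
  rw [← lintegral_const_mul' _ _ (ENNReal.pow_ne_top enorm_ne_top)]
  refine lintegral_congr fun x => ?_
  rw [← lintegral_const_mul' _ _ (ENNReal.pow_ne_top enorm_ne_top)]
  refine lintegral_congr fun y => ?_
  rw [← mul_sub, enorm_mul, mul_pow, mul_div_assoc]

/-- Minkowski's inequality for the mollification -/
lemma gagliardo_moll_le {η : ℝ → ℝ} (hη : Integrable η) {w : ℝ → ℝ} (hw : Continuous w)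
    {M : ℝ} (hM : ∀ x, |w x| ≤ M) (ε : ℝ) :
    gagliardo (moll η ε w) ≤ (∫⁻ z, ‖η z‖ₑ) ^ 2 * gagliardo w := by
  have hint : ∀ x, Integrable fun z => η z * w (x - ε * z) := by
    intro x
    refine hη.mul_bdd (c := M) ?_ ?_
    · exact (hw.comp (by fun_prop)).aestronglyMeasurable
    · exact Eventually.of_forall fun z => by rw [Real.norm_eq_abs]; exact hM _
  have h1 : ∀ x y, ‖moll η ε w x - moll η ε w y‖ₑ ^ 2
      ≤ (∫⁻ z, ‖η z‖ₑ) * ∫⁻ z, ‖η z‖ₑ * ‖w (x - ε * z) - w (y - ε * z)‖ₑ ^ 2 := by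
    intro x y
    have h2 : moll η ε w x - moll η ε w y = ∫ z, η z * (w (x - ε * z) - w (y - ε * z)) := by
      unfold moll
      rw [← integral_sub (hint x) (hint y)]
      refine integral_congr_ae (Eventually.of_forall fun z => ?_)
      simp only
      ring
    rw [h2]
    have h3 : ‖∫ z, η z * (w (x - ε * z) - w (y - ε * z))‖ₑ
        ≤ ∫⁻ z, ‖η z‖ₑ * ‖w (x - ε * z) - w (y - ε * z)‖ₑ := by
      refine (enorm_integral_le_lintegral_enorm _).trans (le_of_eq ?_)
      refine lintegral_congr fun z => ?_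
      rw [enorm_mul]
    refine (pow_le_pow_left' h3 2).trans (sq_lintegral _ hη.1.enorm ?_)
    exact (((hw.comp (by fun_prop)).sub (hw.comp (by fun_prop))).measurable.enorm).aemeasurable
  have hfin : (∫⁻ z, ‖η z‖ₑ) ≠ ⊤ := hη.2.ne
  unfold gagliardo
  calc ∫⁻ x, ∫⁻ y, ‖moll η ε w x - moll η ε w y‖ₑ ^ 2 / ‖x - y‖ₑ ^ 2
      ≤ ∫⁻ x, ∫⁻ y, (∫⁻ z, ‖η z‖ₑ) * ∫⁻ z, ‖η z‖ₑ
          * (‖w (x - ε * z) - w (y - ε * z)‖ₑ ^ 2 / ‖x - y‖ₑ ^ 2) := by
        refine lintegral_mono fun x => lintegral_mono fun y => ?_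
        refine (ENNReal.div_le_div_right (h1 x y) _).trans (le_of_eq ?_)
        by_cases hxy : x = y
        · subst hxy
          simp
        · have hne : ‖x - y‖ₑ ^ 2 ≠ 0 :=
            pow_ne_zero 2 (by rw [ne_eq, enorm_eq_zero, sub_eq_zero]; exact hxy)
          rw [mul_div_assoc]
          congr 1
          rw [ENNReal.div_eq_inv_mul, ← lintegral_const_mul' _ _ (ENNReal.inv_ne_top.2 hne)]
          refine lintegral_congr fun z => ?_
          rw [ENNReal.div_eq_inv_mul]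
          ring
    _ = (∫⁻ z, ‖η z‖ₑ) * ∫⁻ z, ‖η z‖ₑ * gagliardo w := by
        simp_rw [lintegral_const_mul' _ _ hfin]
        congr 1
        have hmeas : AEMeasurable (fun q : ℝ × (ℝ × ℝ) => ‖η q.1‖ₑ
            * (‖w (q.2.1 - ε * q.1) - w (q.2.2 - ε * q.1)‖ₑ ^ 2 / ‖q.2.1 - q.2.2‖ₑ ^ 2))
            (volume.prod (volume.prod volume)) := by
          refine AEMeasurable.mul ?_ ?_
          · exact hη.1.enorm.comp_quasiMeasurePreserving
              Measure.quasiMeasurePreserving_fst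
          · refine Measurable.aemeasurable (Measurable.div ?_ ?_)
            · exact (((hw.comp (by fun_prop)).sub (hw.comp (by fun_prop))).measurable.enorm).pow_const 2
            · exact ((by fun_prop : Continuous fun q : ℝ × (ℝ × ℝ) => q.2.1 - q.2.2).measurable.enorm).pow_const 2
        -- swap the integrals
        have e1 : ∫⁻ x, ∫⁻ y, ∫⁻ z, ‖η z‖ₑ
            * (‖w (x - ε * z) - w (y - ε * z)‖ₑ ^ 2 / ‖x - y‖ₑ ^ 2)
            = ∫⁻ z, ∫⁻ q : ℝ × ℝ, ‖η z‖ₑ
              * (‖w (q.1 - ε * z) - w (q.2 - ε * z)‖ₑ ^ 2 / ‖q.1 - q.2‖ₑ ^ 2)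
                ∂(volume.prod volume) := by
          have h5 : AEMeasurable (fun q : (ℝ × ℝ) × ℝ => ‖η q.2‖ₑ
              * (‖w (q.1.1 - ε * q.2) - w (q.1.2 - ε * q.2)‖ₑ ^ 2 / ‖q.1.1 - q.1.2‖ₑ ^ 2))
              ((volume.prod volume).prod volume) := hmeas.prod_swap
          have h6 : AEMeasurable (fun q : ℝ × ℝ => ∫⁻ z, ‖η z‖ₑ
              * (‖w (q.1 - ε * z) - w (q.2 - ε * z)‖ₑ ^ 2 / ‖q.1 - q.2‖ₑ ^ 2))
              (volume.prod volume) := h5.lintegral_prod_right'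
          rw [← lintegral_prod _ h6]
          exact lintegral_lintegral_swap (f := fun (q : ℝ × ℝ) (z : ℝ) => ‖η z‖ₑ
              * (‖w (q.1 - ε * z) - w (q.2 - ε * z)‖ₑ ^ 2 / ‖q.1 - q.2‖ₑ ^ 2)) h5
        rw [e1]
        refine lintegral_congr fun z => ?_
        have hm2 : Measurable fun q : ℝ × ℝ =>
            ‖w (q.1 - ε * z) - w (q.2 - ε * z)‖ₑ ^ 2 / ‖q.1 - q.2‖ₑ ^ 2 := by
          refine Measurable.div ?_ ?_
          · exact (((hw.comp (by fun_prop)).sub (hw.comp (by fun_prop))).measurable.enorm).pow_const 2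
          · exact ((by fun_prop : Continuous fun q : ℝ × ℝ => q.1 - q.2).measurable.enorm).pow_const 2
        rw [lintegral_const_mul' _ _ enorm_ne_top, lintegral_prod _ hm2.aemeasurable]
        congr 1
        exact gagliardo_translate w (ε * z)
    _ = (∫⁻ z, ‖η z‖ₑ) ^ 2 * gagliardo w := by
        rw [lintegral_mul_const'' _ hη.1.enorm, sq, mul_assoc]

/-- the kernel `C / (1 + t²)` -/
lemma gagliardo_lt_top {w : ℝ → ℝ} {M L R : ℝ} (hM : ∀ x, |w x| ≤ M)
    (hL : ∀ x y, |w x - w y| ≤ L * |x - y|) (hR : ∀ x, x ∉ Icc (-R) R → w x = 0) :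
    gagliardo w < ⊤ := by
  set C : ℝ := L ^ 2 + 4 * M ^ 2 with hC
  set k : ℝ → ℝ≥0∞ := fun t => ENNReal.ofReal (C * (1 + t ^ 2)⁻¹) with hk
  have hkfin : ∫⁻ t, k t < ⊤ := by
    have := (integrable_inv_one_add_sq.const_mul C)
    exact this.lintegral_lt_top
  have hL0 : ∀ x y : ℝ, (w x - w y) ^ 2 ≤ L ^ 2 * (x - y) ^ 2 := by
    intro x y
    have h1 := hL x y
    have h2 := pow_le_pow_left₀ (abs_nonneg _) h1 2
    rwa [sq_abs, mul_pow, sq_abs] at h2
  have hM0 : ∀ x y : ℝ, (w x - w y) ^ 2 ≤ 4 * M ^ 2 := by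
    intro x y
    have h1 := abs_le.1 (hM x)
    have h2 := abs_le.1 (hM y)
    have h3 : |w x - w y| ≤ 2 * M := by
      rw [abs_le]; constructor <;> linarith
    have h4 := pow_le_pow_left₀ (abs_nonneg _) h3 2
    rw [sq_abs, mul_pow] at h4
    linarith
  have hpt : ∀ x y : ℝ, ‖w x - w y‖ₑ ^ 2 / ‖x - y‖ₑ ^ 2
      ≤ (Icc (-R) R).indicator (fun _ => k (x - y)) x
        + (Icc (-R) R).indicator (fun _ => k (x - y)) y := by
    intro x y
    by_cases hxy : x = y
    · subst hxy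
      simp
    · have hkb : ‖w x - w y‖ₑ ^ 2 / ‖x - y‖ₑ ^ 2 ≤ k (x - y) := by
        have hpos : 0 < (x - y) ^ 2 := by
          have := sub_ne_zero.2 hxy
          positivity
        have e1 : ‖w x - w y‖ₑ ^ 2 = ENNReal.ofReal ((w x - w y) ^ 2) := by
          rw [Real.enorm_eq_ofReal_abs, ← ENNReal.ofReal_pow (abs_nonneg _), sq_abs]
        have e2 : ‖x - y‖ₑ ^ 2 = ENNReal.ofReal ((x - y) ^ 2) := by
          rw [Real.enorm_eq_ofReal_abs, ← ENNReal.ofReal_pow (abs_nonneg _), sq_abs]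
        rw [e1, e2, ← ENNReal.ofReal_div_of_pos hpos, hk]
        refine ENNReal.ofReal_le_ofReal ?_
        rw [div_le_iff₀ hpos, hC]
        have h1 := hL0 x y
        have h2 := hM0 x y
        have h3 : (w x - w y) ^ 2 * (1 + (x - y) ^ 2) ≤ (L ^ 2 + 4 * M ^ 2) * (x - y) ^ 2 := by
          nlinarith
        have h4 : (L ^ 2 + 4 * M ^ 2) * (1 + (x - y) ^ 2)⁻¹ * (x - y) ^ 2
            = ((L ^ 2 + 4 * M ^ 2) * (x - y) ^ 2) / (1 + (x - y) ^ 2) := by
          field_simp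
        rw [h4, le_div_iff₀ (by positivity)]
        exact h3
      by_cases hx : x ∈ Icc (-R) R
      · rw [Set.indicator_of_mem hx]
        exact hkb.trans le_self_add
      · by_cases hy : y ∈ Icc (-R) R
        · rw [Set.indicator_of_mem hy]
          exact hkb.trans le_add_self
        · rw [hR x hx, hR y hy]
          simp
  have hkm : Measurable k := by
    rw [hk]
    fun_prop
  unfold gagliardo
  calc ∫⁻ x, ∫⁻ y, ‖w x - w y‖ₑ ^ 2 / ‖x - y‖ₑ ^ 2
      ≤ ∫⁻ x, ∫⁻ y, ((Icc (-R) R).indicator (fun _ => k (x - y)) x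
        + (Icc (-R) R).indicator (fun _ => k (x - y)) y) :=
        lintegral_mono fun x => lintegral_mono fun y => hpt x y
    _ = (∫⁻ x, ∫⁻ y, (Icc (-R) R).indicator (fun _ => k (x - y)) x)
        + ∫⁻ x, ∫⁻ y, (Icc (-R) R).indicator (fun _ => k (x - y)) y := by
        have hm1 : Measurable fun q : ℝ × ℝ => (Icc (-R) R).indicator (fun _ => k (q.1 - q.2)) q.1 := by
          have : (fun q : ℝ × ℝ => (Icc (-R) R).indicator (fun _ => k (q.1 - q.2)) q.1)
              = (Prod.fst ⁻¹' (Icc (-R) R)).indicator (fun q : ℝ × ℝ => k (q.1 - q.2)) := by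
            funext q
            by_cases h : q.1 ∈ Icc (-R) R
            · rw [Set.indicator_of_mem h, Set.indicator_of_mem (by exact h)]
            · rw [Set.indicator_of_notMem h, Set.indicator_of_notMem (by exact h)]
          rw [this]
          exact (hkm.comp (measurable_fst.sub measurable_snd)).indicator
            (measurable_fst measurableSet_Icc)
        rw [← lintegral_add_left hm1.lintegral_prod_right']
        refine lintegral_congr fun x => ?_
        rw [lintegral_add_left]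
        exact hm1.comp measurable_prodMk_left
    _ < ⊤ := by
        refine ENNReal.add_lt_top.2 ⟨?_, ?_⟩
        · have h1 : ∀ x, ∫⁻ y, (Icc (-R) R).indicator (fun _ => k (x - y)) x
              = (Icc (-R) R).indicator (fun _ => ∫⁻ t, k t) x := by
            intro x
            by_cases h : x ∈ Icc (-R) R
            · simp only [Set.indicator_of_mem h]
              exact lintegral_sub_left_eq_self k x
            · simp only [Set.indicator_of_notMem h, lintegral_zero]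
          simp_rw [h1]
          rw [lintegral_indicator measurableSet_Icc, lintegral_const]
          refine ENNReal.mul_lt_top hkfin ?_
          rw [Measure.restrict_apply MeasurableSet.univ, univ_inter]
          exact measure_Icc_lt_top
        · have hm2 : Measurable fun q : ℝ × ℝ => (Icc (-R) R).indicator (fun _ => k (q.1 - q.2)) q.2 := by
            have : (fun q : ℝ × ℝ => (Icc (-R) R).indicator (fun _ => k (q.1 - q.2)) q.2)
                = (Prod.snd ⁻¹' (Icc (-R) R)).indicator (fun q : ℝ × ℝ => k (q.1 - q.2)) := by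
              funext q
              by_cases h : q.2 ∈ Icc (-R) R
              · rw [Set.indicator_of_mem h, Set.indicator_of_mem (by exact h)]
              · rw [Set.indicator_of_notMem h, Set.indicator_of_notMem (by exact h)]
            rw [this]
            exact (hkm.comp (measurable_fst.sub measurable_snd)).indicator
              (measurable_snd measurableSet_Icc)
          rw [lintegral_lintegral_swap hm2.aemeasurable]
          have h1 : ∀ y, ∫⁻ x, (Icc (-R) R).indicator (fun _ => k (x - y)) y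
              = (Icc (-R) R).indicator (fun _ => ∫⁻ t, k t) y := by
            intro y
            by_cases h : y ∈ Icc (-R) R
            · simp only [Set.indicator_of_mem h]
              exact lintegral_sub_right_eq_self k y
            · simp only [Set.indicator_of_notMem h, lintegral_zero]
          simp_rw [h1]
          rw [lintegral_indicator measurableSet_Icc, lintegral_const]
          refine ENNReal.mul_lt_top hkfin ?_
          rw [Measure.restrict_apply MeasurableSet.univ, univ_inter]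
          exact measure_Icc_lt_top

end Pool.Agent.X101.Gag
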